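import Mathlib.RingTheory.Polynomial.DegreeLT
import Mathlib.RingTheory.AdjoinRoot
import Mathlib.RingTheory.Localization.Integer
import Mathlib.RingTheory.Localization.FractionRing
import Mathlib.LinearAlgebra.FiniteDimensional.Lemmas
import Mathlib.Tactic.ComputeDegree
import Mathlib.Tactic.LinearCombination
import Mathlib.RingTheory.RingHom.Smooth
import Mathlib.Algebra.Category.Ring.Constructions
import Mathlib.LinearAlgebra.Matrix.Notation
import Mathlib.Algebra.DualNumber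
import Mathlib.Algebra.MvPolynomial.Monad
import Mathlib.FieldTheory.IsAlgClosed.Basic
import Mathlib.RingTheory.RingHom.Etale
import Pool.Agent.MP_e8e0b6_ag.S.Germ

-- ======== part 0: formerly Pool.Agent.MP_e8e0b6_ag.NP.Alg
section MrgPart0

/-!
Polynomial curves in the complement of the conics `x ^ 2 = (s ^ 2 - s) y z` and an anisotropic
ternary form.
-/

open Polynomial

namespace Pool.Agent.MP_e8e0b6_ag.NP

variable {L : Type} [Field L]

theorem exists_sq {a b c d e f : L[X]} (h1 : a * d = b ^ 2) (h2 : a * f = c ^ 2)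
    (h3 : a * e = b * c) (h4 : IsCoprime a e) (h0 : a ≠ 0) :
    ∃ (u : L) (g : L[X]), a = C u * g ^ 2 := by
  classical
  obtain ⟨u, w, h5⟩ : ∃ u w, EuclideanDomain.gcd b c = b * u + c * w :=
    ⟨_, _, EuclideanDomain.gcd_eq_gcd_ab b c⟩
  have h6 : a * (u ^ 2 * d + 2 * u * w * e + w ^ 2 * f) = EuclideanDomain.gcd b c ^ 2 := by
    rw [h5]; linear_combination u ^ 2 * h1 + 2 * u * w * h3 + w ^ 2 * h2
  have h7 : u ^ 2 * d + 2 * u * w * e + w ^ 2 * f ∣ e := by
    rw [← mul_dvd_mul_iff_left h0, h6, h3, sq]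
    exact mul_dvd_mul (EuclideanDomain.gcd_dvd_left b c) (EuclideanDomain.gcd_dvd_right b c)
  obtain ⟨g, v, hv⟩ := exists_associated_pow_of_mul_eq_pow' (h4.of_isCoprime_of_dvd_right h7) h6
  obtain ⟨r, -, hr⟩ := Polynomial.isUnit_iff.1 v.isUnit
  exact ⟨r, g, by rw [hr, ← hv, mul_comm]⟩

theorem exists_small {P : L[X]} (G : L[X]) {m : ℕ} (h0 : P ≠ 0) (hP : P.natDegree ≤ 2 * m) :
    ∃ A B : L[X], (A ≠ 0 ∨ B ≠ 0) ∧ A.natDegree ≤ m ∧ B.natDegree ≤ m ∧ P ∣ A - G * B := by
  have := Module.Finite.of_basis (AdjoinRoot.powerBasis h0).basis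
  let F : (degreeLT L (m + 1) × degreeLT L (m + 1)) →ₗ[L] AdjoinRoot P :=
    (AdjoinRoot.mkₐ P).toLinearMap.comp ((degreeLT L (m + 1)).subtype.comp (LinearMap.fst _ _ _) -
      (LinearMap.mulLeft L G).comp ((degreeLT L (m + 1)).subtype.comp (LinearMap.snd _ _ _)))
  have h : LinearMap.ker F ≠ ⊥ := F.ker_ne_bot_of_finrank_lt (by
    rw [Module.finrank_eq_card_basis (degreeLT.basisProd L _ _), (AdjoinRoot.powerBasis h0).finrank,
      AdjoinRoot.powerBasis_dim, Fintype.card_fin]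
    omega)
  obtain ⟨⟨⟨A, hA⟩, ⟨B, hB⟩⟩, h1, h2⟩ := Submodule.exists_mem_ne_zero_of_ne_bot h
  have hd : ∀ {Q : L[X]}, Q ∈ degreeLT L (m + 1) → Q.natDegree ≤ m := fun h =>
    natDegree_le_iff_degree_le.2 (by
      rw [mem_degreeLT] at h
      exact Order.le_of_lt_succ (by exact_mod_cast h))
  refine ⟨A, B, ?_, hd hA, hd hB, AdjoinRoot.mk_eq_zero.1 h1⟩
  by_contra! h3
  exact h2 (Prod.ext (Subtype.ext h3.1) (Subtype.ext h3.2))

theorem exists_zero {γ a b c d e f : L[X]} (hγ : 0 < γ.natDegree) (h1 : a * d = b ^ 2)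
    (h2 : a * f = c ^ 2) (h3 : a * e = b * c) (h4 : a - (γ ^ 2 - γ) * e = 1)
    (h0 : a.coeff 0 ≠ 0) : ∃ x y z : L, (y ≠ 0 ∨ z ≠ 0) ∧
      x ^ 2 - a.coeff 0 * y ^ 2 - (γ.coeff 0 ^ 2 - γ.coeff 0) * z ^ 2 = 0 := by
  obtain ⟨u, g, rfl⟩ := exists_sq h1 h2 h3 ⟨1, -(γ ^ 2 - γ), by linear_combination h4⟩
    (by rintro rfl; simp at h0)
  have hg : (C u * g ^ 2).coeff 0 = u * g.coeff 0 ^ 2 := by simp [sq, mul_coeff_zero]
  rw [hg] at h0 ⊢
  have hg0 : g.coeff 0 ≠ 0 := by rintro h; simp [h] at h0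
  suffices ∃ x y z : L, (y ≠ 0 ∨ z ≠ 0) ∧
      x ^ 2 - u * y ^ 2 - (γ.coeff 0 ^ 2 - γ.coeff 0) * z ^ 2 = 0 by
    obtain ⟨x, y, z, h5, h6⟩ := this
    exact ⟨g.coeff 0 * x, y, g.coeff 0 * z, h5.imp id (mul_ne_zero hg0),
      by linear_combination g.coeff 0 ^ 2 * h6⟩
  set m := γ.natDegree with hm
  have hl : γ.coeff m ≠ 0 := leadingCoeff_ne_zero.2 (ne_zero_of_natDegree_gt hγ)
  have hP : (γ ^ 2 - γ).coeff (2 * m) = γ.coeff m ^ 2 := by
    rw [coeff_sub, coeff_pow_of_natDegree_le le_rfl,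
      coeff_eq_zero_of_natDegree_lt (p := γ) (n := 2 * m) (by omega), sub_zero]
  have hP1 : (γ ^ 2 - γ).natDegree ≤ 2 * m :=
    (natDegree_sub_le _ _).trans (max_le natDegree_pow_le (by omega))
  have hP2 : (γ ^ 2 - γ).natDegree = 2 * m :=
    natDegree_eq_of_le_of_coeff_ne_zero hP1 (hP ▸ pow_ne_zero 2 hl)
  have hP0 : γ ^ 2 - γ ≠ 0 := ne_zero_of_natDegree_gt (n := 0) (by omega)
  obtain ⟨A, B, h5, hA, hB, K, hK⟩ := exists_small (C u * g) hP0 hP1
  obtain ⟨K, hK⟩ : γ ^ 2 - γ ∣ A ^ 2 - C u * B ^ 2 :=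
    ⟨K * (A + C u * g * B) + C u * B ^ 2 * e, by
      linear_combination (A + C u * g * B) * hK + C u * B ^ 2 * h4⟩
  by_cases hK0 : K = 0
  · rw [hK0, mul_zero, sub_eq_zero] at hK
    have hB0 : B ≠ 0 := by
      rintro rfl
      simp only [ne_eq, not_true, or_false] at h5
      exact h5 (by simpa using hK)
    have := congrArg leadingCoeff hK
    rw [leadingCoeff_mul, leadingCoeff_pow, leadingCoeff_pow, leadingCoeff_C] at this
    exact ⟨A.leadingCoeff, B.leadingCoeff, 0, .inl (leadingCoeff_ne_zero.2 hB0),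
      by linear_combination this⟩
  have hd : (A ^ 2 - C u * B ^ 2).natDegree ≤ 2 * m :=
    (natDegree_sub_le _ _).trans (max_le (natDegree_pow_le.trans (by omega))
      ((natDegree_C_mul_le _ _).trans (natDegree_pow_le.trans (by omega))))
  rw [hK, natDegree_mul hP0 hK0, hP2] at hd
  obtain ⟨κ, rfl⟩ := natDegree_eq_zero.1 (show K.natDegree = 0 by omega)
  have e1 := congrArg (coeff · (2 * m)) hK
  have e2 := congrArg (coeff · 0) hK
  simp only [coeff_mul_C, hP] at e1
  rw [coeff_sub, coeff_C_mul, coeff_pow_of_natDegree_le hA, coeff_pow_of_natDegree_le hB] at e1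
  simp only [coeff_sub, sq, mul_coeff_zero, coeff_C_zero] at e2
  refine ⟨A.coeff m * A.coeff 0 + u * B.coeff m * B.coeff 0,
    A.coeff m * B.coeff 0 + A.coeff 0 * B.coeff m, κ * γ.coeff m,
    .inr (mul_ne_zero (by rintro rfl; simp at hK0) hl), ?_⟩
  linear_combination (A.coeff 0 ^ 2 - u * B.coeff 0 ^ 2) * e1 + γ.coeff m ^ 2 * κ * e2

variable {k : Type} [Field k]

theorem not_sq {x y : k[X]} (h : x ^ 2 = (X ^ 2 - X) * y ^ 2) : y = 0 := by
  by_contra h0
  have h1 : (X - 1 : k[X]) ≠ 0 := X_sub_C_ne_zero 1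
  have h2 : x * x = X * (X - 1) * (y * y) := by linear_combination h
  have h3 : x ≠ 0 := by
    rintro rfl
    exact mul_ne_zero (mul_ne_zero X_ne_zero h1) (mul_ne_zero h0 h0) (h2.symm.trans (mul_zero _))
  have h4 := congrArg natTrailingDegree h2
  rw [natTrailingDegree_mul h3 h3, natTrailingDegree_mul (mul_ne_zero X_ne_zero h1)
    (mul_ne_zero h0 h0), natTrailingDegree_mul X_ne_zero h1, natTrailingDegree_mul h0 h0,
    natTrailingDegree_X,
    (natTrailingDegree_eq_zero (p := X - 1)).2 (.inr (by simp))] at h4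
  omega

theorem aniso_poly {x y z : k[X][X]}
    (h : x ^ 2 - (1 - C (X ^ 2 - X) * X) * y ^ 2 - C (X ^ 2 - X) * z ^ 2 = 0) : y = 0 ∧ z = 0 := by
  have hμ : (X ^ 2 - X : k[X]) ≠ 0 := fun h =>
    one_ne_zero (not_sq (k := k) (x := 0) (y := 1) (by rw [h]; ring))
  have hq : (1 - C (X ^ 2 - X) * X : k[X][X]).natDegree = 1 := by
    rw [natDegree_sub_eq_right_of_natDegree_lt] <;> rw [natDegree_C_mul_X _ hμ]
    simp
  have hq0 := ne_zero_of_natDegree_gt (n := 0) (hq ▸ one_pos)
  have h1 : x ^ 2 - C (X ^ 2 - X) * z ^ 2 = (1 - C (X ^ 2 - X) * X) * y ^ 2 := by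
    linear_combination h
  set n := max x.natDegree z.natDegree with hn
  have h2 : (x ^ 2 - C (X ^ 2 - X) * z ^ 2).coeff (2 * n) =
      x.coeff n ^ 2 - (X ^ 2 - X) * z.coeff n ^ 2 := by
    rw [coeff_sub, coeff_C_mul, coeff_pow_of_natDegree_le (le_max_left _ _),
      coeff_pow_of_natDegree_le (le_max_right _ _)]
  have h3 : (x ^ 2 - C (X ^ 2 - X) * z ^ 2).natDegree ≤ 2 * n :=
    (natDegree_sub_le _ _).trans (max_le (natDegree_pow_le.trans (by omega))
      ((natDegree_C_mul_le _ _).trans (natDegree_pow_le.trans (by omega))))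
  have h4 : x.coeff n ^ 2 = (X ^ 2 - X) * z.coeff n ^ 2 := by
    by_contra h4
    have h5 : (x ^ 2 - C (X ^ 2 - X) * z ^ 2).coeff (2 * n) ≠ 0 := h2 ▸ sub_ne_zero.2 h4
    have h6 := natDegree_eq_of_le_of_coeff_ne_zero h3 h5
    have h7 : y ≠ 0 := by
      rintro rfl
      rw [h1] at h5
      simp at h5
    rw [h1, natDegree_mul hq0 (pow_ne_zero 2 h7), hq, natDegree_pow] at h6
    omega
  have h5 := not_sq h4
  have h6 : x.coeff n = 0 := by simpa [h5] using h4
  have h7 : x = 0 ∧ z = 0 := by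
    rcases le_total x.natDegree z.natDegree with h8 | h8
    · rw [hn, max_eq_right h8] at h5 h6
      obtain rfl : z = 0 := leadingCoeff_eq_zero.1 h5
      rw [natDegree_zero] at h8 h6
      exact ⟨by rw [eq_C_of_natDegree_le_zero h8, h6, C_0], rfl⟩
    · rw [hn, max_eq_left h8] at h5 h6
      obtain rfl : x = 0 := leadingCoeff_eq_zero.1 h6
      rw [natDegree_zero] at h8 h5
      exact ⟨rfl, by rw [eq_C_of_natDegree_le_zero h8, h5, C_0]⟩
  refine ⟨?_, h7.2⟩
  rw [h7.1, h7.2] at h1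
  exact pow_eq_zero_iff two_ne_zero |>.1 ((mul_eq_zero.1 (h1.symm.trans (by ring))).resolve_left hq0)

theorem aniso [Algebra k[X][X] L] [IsFractionRing k[X][X] L] {x y z u : L}
    (hu : u * algebraMap k[X][X] L (1 - C (X ^ 2 - X) * X) = 1)
    (h : x ^ 2 - u * y ^ 2 - algebraMap k[X][X] L (C (X ^ 2 - X)) * z ^ 2 = 0) : y = 0 ∧ z = 0 := by
  obtain ⟨⟨b, hb⟩, h1⟩ := IsLocalization.exist_integer_multiples_of_finite
    (nonZeroDivisors k[X][X]) ![x, u * y, z]
  obtain ⟨x', hx⟩ := h1 0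
  obtain ⟨y', hy⟩ := h1 1
  obtain ⟨z', hz⟩ := h1 2
  simp only [Algebra.smul_def, Matrix.cons_val] at hx hy hz
  have hb' : algebraMap k[X][X] L b ≠ 0 := IsFractionRing.to_map_ne_zero_of_mem_nonZeroDivisors hb
  obtain ⟨rfl, rfl⟩ := aniso_poly (x := x') (y := y') (z := z') (IsFractionRing.injective _ L (by
    rw [map_sub, map_sub, map_mul, map_mul _ (C _) (z' ^ 2), map_pow, map_pow, map_pow, hx, hy, hz,
      map_zero]
    linear_combination algebraMap k[X][X] L b ^ 2 * h - algebraMap k[X][X] L b ^ 2 * u * y ^ 2 * hu))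
  rw [map_zero, eq_comm, mul_eq_zero] at hy hz
  exact ⟨(mul_eq_zero.1 (hy.resolve_left hb')).resolve_left (left_ne_zero_of_mul_eq_one hu),
    hz.resolve_left hb'⟩

end Pool.Agent.MP_e8e0b6_ag.NP

end MrgPart0

-- ======== part 1: formerly Pool.Agent.MP_e8e0b6_ag.NP.Ring
section MrgPart1

/-!
The coordinate ring of the complement of the conic `x ^ 2 = μ y z` in the projective plane.
-/

open MvPolynomial Matrix

namespace Pool.Agent.MP_e8e0b6_ag.NP

variable {A T : Type} [CommRing A] [CommRing T]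

/-- The matrices `v vᵀ / (x ^ 2 - μ y z)` for `v = (x, y, z)`. -/
structure Pt (μ : T) (M : Matrix (Fin 3) (Fin 3) T) : Prop where
  symm : ∀ a b, M a b = M b a
  rk : ∀ a b c d, M a b * M c d = M a d * M c b
  tr : M 0 0 - μ * M 1 2 = 1

theorem Pt.map {μ : A} {M : Matrix (Fin 3) (Fin 3) A} (h : Pt μ M) (ψ : A →+* T) :
    Pt (ψ μ) (M.map ψ) :=
  ⟨fun a b => congrArg ψ (h.symm a b), fun a b c d => by
    simpa only [map_apply, map_mul] using congrArg ψ (h.rk a b c d), by
    simpa only [map_apply, map_mul, map_sub, map_one] using congrArg ψ h.tr⟩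

theorem Pt.of_vec {μ u : T} {v : Fin 3 → T} (h : u * (v 0 ^ 2 - μ * v 1 * v 2) = 1) :
    Pt μ (of fun a b => u * v a * v b) :=
  ⟨fun a b => by simp only [of_apply]; ring, fun a b c d => by simp only [of_apply]; ring, by
    simp only [of_apply]; linear_combination h⟩

theorem Pt.mul_diag {μ : T} {M : Matrix (Fin 3) (Fin 3) T} (h : Pt μ M) (i a b : Fin 3) :
    M i a * M i b = M i i * M a b := by
  rw [h.symm i a, h.rk, mul_comm]

/-- The equations. -/
def rel (μ : A) : Set (MvPolynomial (Fin 3 × Fin 3) A) :=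
  {p | (∃ a b, p = X (a, b) - X (b, a)) ∨
    (∃ a b c d, p = X (a, b) * X (c, d) - X (a, d) * X (c, b)) ∨ p = X (0, 0) - C μ * X (1, 2) - 1}

/-- The coordinate ring. -/
abbrev Rg (μ : A) : Type := MvPolynomial (Fin 3 × Fin 3) A ⧸ Ideal.span (rel μ)

/-- The constants. -/
noncomputable def cst (μ : A) : A →+* Rg μ := (Ideal.Quotient.mk _).comp C

/-- The universal matrix. -/
noncomputable def mat (μ : A) : Matrix (Fin 3) (Fin 3) (Rg μ) :=
  of fun a b => Ideal.Quotient.mk _ (X (a, b))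

theorem pt (μ : A) : Pt (cst μ μ) (mat μ) :=
  ⟨fun a b => Ideal.Quotient.eq.2 (Ideal.subset_span (.inl ⟨a, b, rfl⟩)),
    fun a b c d => Ideal.Quotient.eq.2 (Ideal.subset_span (.inr (.inl ⟨a, b, c, d, rfl⟩))),
    Ideal.Quotient.eq.2 (Ideal.subset_span (.inr (.inr rfl)))⟩

/-- The universal property. -/
noncomputable def lift {μ : A} (ψ : A →+* T) {M : Matrix (Fin 3) (Fin 3) T} (h : Pt (ψ μ) M) :
    Rg μ →+* T :=
  Ideal.Quotient.lift _ (eval₂Hom ψ fun p => M p.1 p.2) fun _ hp =>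
    (Ideal.span_le (I := RingHom.ker _)).2 (by
      rintro _ (⟨a, b, rfl⟩ | ⟨a, b, c, d, rfl⟩ | rfl)
      · simpa [sub_eq_zero] using h.symm a b
      · simpa [sub_eq_zero] using h.rk a b c d
      · simpa [sub_eq_zero] using h.tr) hp

section
variable {μ : A} (ψ : A →+* T) {M : Matrix (Fin 3) (Fin 3) T} (h : Pt (ψ μ) M)

theorem lift_cst (a : A) : lift ψ h (cst μ a) = ψ a := eval₂Hom_C _ _ _

theorem lift_comp_cst : (lift ψ h).comp (cst μ) = ψ := RingHom.ext (lift_cst ψ h)

theorem lift_mat (a b : Fin 3) : lift ψ h (mat μ a b) = M a b := eval₂Hom_X' _ _ _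

theorem rg_ext {f g : Rg μ →+* T} (h1 : ∀ a, f (cst μ a) = g (cst μ a))
    (h2 : ∀ a b, f (mat μ a b) = g (mat μ a b)) : f = g :=
  Ideal.Quotient.ringHom_ext (ringHom_ext h1 fun p => h2 p.1 p.2)

end

variable (A) in
/-- The coordinates on the `i`-th chart of the plane. -/
noncomputable def crd (i : Fin 3) : Fin 3 → MvPolynomial (Fin 2) A := i.insertNth 1 X

/-- The equation of the conic in the `i`-th chart. -/
noncomputable def qq (μ : A) (i : Fin 3) : MvPolynomial (Fin 2) A :=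
  crd A i 0 ^ 2 - C μ * crd A i 1 * crd A i 2

/-- The restriction to the `i`-th chart. -/
noncomputable def res (μ : A) (i : Fin 3) : Rg μ →+* Localization.Away (qq μ i) :=
  lift ((algebraMap (MvPolynomial (Fin 2) A) _).comp C)
    (Pt.of_vec (u := IsLocalization.Away.invSelf (qq μ i))
    (v := fun a => algebraMap _ _ (crd A i a)) (by
      rw [mul_comm, ← IsLocalization.Away.mul_invSelf (qq μ i), RingHom.comp_apply, ← map_pow,
        ← map_mul, ← map_mul, ← map_sub]
      rfl))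

theorem res_mat (μ : A) (i a b : Fin 3) : res μ i (mat μ a b) = IsLocalization.Away.invSelf (qq μ i) *
    algebraMap _ _ (crd A i a) * algebraMap _ _ (crd A i b) := lift_mat _ _ _ _

theorem crd_self (i : Fin 3) : crd A i i = 1 := Fin.insertNth_apply_same _ _ _

theorem crd_succ (i : Fin 3) (j : Fin 2) : crd A i (i.succAbove j) = X j :=
  Fin.insertNth_apply_succAbove _ _ _ _

theorem exists_chart (μ : A) (i : Fin 3) :
    ∃ κ : Localization.Away (qq μ i) →+* Localization.Away (mat μ i i), Function.Bijective κ ∧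
      κ.comp (res μ i) = algebraMap _ _ := by
  let R := Localization.Away (mat μ i i)
  let r := algebraMap (Rg μ) R
  let w : R := IsLocalization.Away.invSelf (mat μ i i)
  have hw : r (mat μ i i) * w = 1 := IsLocalization.Away.mul_invSelf _
  let g : MvPolynomial (Fin 2) A →+* R :=
    eval₂Hom (r.comp (cst μ)) fun j => r (mat μ i (i.succAbove j)) * w
  have h1 : ∀ a, g (crd A i a) = r (mat μ i a) * w := fun a => by
    refine i.succAboveCases ?_ (fun j => ?_) a
    · rw [crd_self, map_one, hw]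
    · rw [crd_succ, eval₂Hom_X']
  have h2 : ∀ a, g (C a) = r (cst μ a) := eval₂Hom_C _ _
  have H := (pt μ).map r
  have h3 : ∀ a b, r (mat μ i a) * r (mat μ i b) = r (mat μ i i) * r (mat μ a b) := H.mul_diag i
  have h4 : g (qq μ i) * r (mat μ i i) = 1 := by
    have := H.tr
    simp only [map_apply] at this
    rw [qq, map_sub, map_pow, map_mul, map_mul, h1, h1, h1, h2]
    linear_combination w ^ 2 * r (mat μ i i) * h3 0 0 - r (cst μ μ) * w ^ 2 * r (mat μ i i) * h3 1 2 +
      (r (mat μ i i) * w) ^ 2 * this + (r (mat μ i i) * w + 1) * hw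
  let κ : Localization.Away (qq μ i) →+* R := IsLocalization.Away.lift (qq μ i) (.of_mul_eq_one _ h4)
  have h5 : ∀ p, κ (algebraMap _ _ p) = g p := IsLocalization.Away.lift_eq _ _
  have h6 : κ (IsLocalization.Away.invSelf (qq μ i)) = r (mat μ i i) := by
    have := congrArg κ (IsLocalization.Away.mul_invSelf (S := Localization.Away (qq μ i)) (qq μ i))
    rw [map_mul, h5, map_one] at this
    linear_combination r (mat μ i i) * this - κ (IsLocalization.Away.invSelf (qq μ i)) * h4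
  have h7 : κ.comp (res μ i) = r := rg_ext
    (fun a => (congrArg κ (lift_cst _ _ _)).trans ((h5 _).trans (h2 a))) fun a b => by
      rw [RingHom.comp_apply, res_mat, map_mul, map_mul, h5, h5, h6, h1, h1]
      linear_combination r (mat μ i i) * w ^ 2 * h3 a b + r (mat μ a b) * (r (mat μ i i) * w + 1) * hw
  have h8 : res μ i (mat μ i i) = IsLocalization.Away.invSelf (qq μ i) := by
    rw [res_mat, crd_self, map_one, mul_one, mul_one]
  let l : R →+* Localization.Away (qq μ i) := IsLocalization.Away.lift (mat μ i i)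
    (g := res μ i) (.of_mul_eq_one_right _ (h8 ▸ IsLocalization.Away.mul_invSelf (qq μ i)))
  have h9 : ∀ p, l (r p) = res μ i p := IsLocalization.Away.lift_eq _ _
  have h10 : l.comp κ = RingHom.id _ := IsLocalization.ringHom_ext (.powers (qq μ i))
    (ringHom_ext (fun a => (congrArg l ((h5 _).trans (h2 a))).trans ((h9 _).trans (lift_cst _ _ _)))
      fun j => by
        have := congrArg l hw
        rw [map_mul, h9, h8, map_one] at this
        rw [RingHom.comp_apply, RingHom.comp_apply, h5, ← crd_succ i j, h1, map_mul, h9, res_mat,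
          crd_self, map_one]
        exact (by linear_combination algebraMap _ _ (crd A i (i.succAbove j)) * this))
  have h11 : κ.comp l = RingHom.id _ := IsLocalization.ringHom_ext (.powers (mat μ i i))
    (RingHom.ext fun p => (congrArg κ (h9 p)).trans (DFunLike.congr_fun h7 p))
  exact ⟨κ, Function.bijective_iff_has_inverse.2
    ⟨l, DFunLike.congr_fun h10, DFunLike.congr_fun h11⟩, h7⟩

theorem coprime (μ : A) : IsCoprime (mat μ 0 0) (mat μ 1 1) :=
  ⟨mat μ 0 0 - 2 * cst μ μ * mat μ 1 2, cst μ μ ^ 2 * mat μ 2 2, by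
    linear_combination (mat μ 0 0 - cst μ μ * mat μ 1 2 + 1) * (pt μ).tr -
      cst μ μ ^ 2 * (pt μ).mul_diag 1 2 2⟩

theorem smooth_cst (μ : A) : (cst μ).Smooth := by
  refine RingHom.Smooth.ofLocalizationSpanTarget _ (Set.range fun i => mat μ i i) ?_ ?_
  · obtain ⟨a, b, h⟩ := coprime μ
    rw [Ideal.eq_top_iff_one, ← h]
    exact add_mem (Ideal.mul_mem_left _ _ (Ideal.subset_span ⟨0, rfl⟩))
      (Ideal.mul_mem_left _ _ (Ideal.subset_span ⟨1, rfl⟩))
  · rintro ⟨_, i, rfl⟩
    obtain ⟨κ, h1, h2⟩ := exists_chart μ i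
    rw [← h2, RingHom.comp_assoc, res, lift_comp_cst]
    exact ((RingHom.smooth_algebraMap.2 (⟨inferInstance, inferInstance⟩ :
      Algebra.Smooth A (MvPolynomial (Fin 2) A))).comp
      (RingHom.smooth_algebraMap.2 (.of_isLocalization_Away (qq μ i)))).comp (.of_bijective h1)

theorem isDomain [IsDomain A] (μ : A) : IsDomain (Rg μ) := by
  have h1 : ∀ i, Submonoid.powers (qq μ i) ≤ nonZeroDivisors _ := fun i =>
    powers_le_nonZeroDivisors_of_noZeroDivisors fun h => by
      have := congrArg (eval ![1, 0]) h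
      fin_cases i <;> simp [qq, crd, Fin.insertNth, Fin.succAboveCases] at this
  have h2 : ∀ i, IsDomain (Localization.Away (qq μ i)) := fun i =>
    IsLocalization.isDomain_localization (h1 i)
  have h3 : ∀ i x, res μ i x = 0 → ∃ n : ℕ, mat μ i i ^ n * x = 0 := fun i x h => by
    obtain ⟨κ, -, h2⟩ := exists_chart μ i
    obtain ⟨⟨_, n, rfl⟩, h⟩ := (IsLocalization.map_eq_zero_iff (.powers (mat μ i i))
      (Localization.Away (mat μ i i)) x).1 (by rw [← h2, RingHom.comp_apply, h, map_zero])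
    exact ⟨n, h⟩
  have h4 : res μ 1 (mat μ 0 0) ≠ 0 := by
    have : algebraMap _ (Localization.Away (qq μ 1)) (crd A 1 0) ≠ 0 :=
      (map_ne_zero_iff _ (IsLocalization.injective _ (h1 1))).2
        ((crd_succ 1 0).trans_ne (X_ne_zero _))
    rw [res_mat]
    exact mul_ne_zero (mul_ne_zero (right_ne_zero_of_mul_eq_one
      (IsLocalization.Away.mul_invSelf (qq μ 1))) this) this
  refine Function.Injective.isDomain (res μ 0) ((injective_iff_map_eq_zero _).2 fun x hx => ?_)
  obtain ⟨n, hn⟩ := h3 0 x hx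
  have h5 := congrArg (res μ 1) hn
  rw [map_mul, map_pow, map_zero] at h5
  obtain ⟨m, hm⟩ := h3 1 x ((mul_eq_zero.1 h5).resolve_left (pow_ne_zero _ h4))
  obtain ⟨a, b, h⟩ := (coprime μ).pow (m := n) (n := m)
  linear_combination a * hn + b * hm - x * h

end Pool.Agent.MP_e8e0b6_ag.NP

end MrgPart1

-- ======== part 2: formerly Pool.Agent.MP_e8e0b6_ag.NP.Orth
section MrgPart2

/-!
Unipotent automorphisms of the form `x ^ 2 - μ y z` and the spray they define.
-/

open MvPolynomial Matrix TrivSqZeroExt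

namespace Pool.Agent.MP_e8e0b6_ag.NP

variable {A T : Type} [CommRing A] [CommRing T]

theorem Pt.conj {μ : T} {M : Matrix (Fin 3) (Fin 3) T} (h : Pt μ M) (G : Matrix (Fin 3) (Fin 3) T)
    (hG : (G * M * Gᵀ) 0 0 - μ * (G * M * Gᵀ) 1 2 = 1) : Pt μ (G * M * Gᵀ) := by
  have h1 : ∀ a b c d, (G * M) a b * (G * M) c d = (G * M) a d * (G * M) c b := fun a b c d => by
    simp only [mul_apply, Finset.sum_mul_sum]
    exact Finset.sum_congr rfl fun p _ => Finset.sum_congr rfl fun r _ => by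
      linear_combination G a p * G c r * h.rk p b r d
  refine ⟨fun a b => ?_, fun a b c d => ?_, hG⟩
  · have : Mᵀ = M := ext fun a b => h.symm b a
    rw [← transpose_apply (G * M * Gᵀ), transpose_mul, transpose_mul, transpose_transpose, this,
      Matrix.mul_assoc]
  · simp only [mul_apply (M := G * M), Finset.sum_mul_sum]
    rw [Finset.sum_comm]
    exact Finset.sum_congr rfl fun p _ => Finset.sum_congr rfl fun r _ => by
      linear_combination Gᵀ r b * Gᵀ p d * h1 a r c p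

/-- The first unipotent group. -/
def g1 (μ t : T) : Matrix (Fin 3) (Fin 3) T := !![1, 0, μ * t; 2 * t, 1, μ * t ^ 2; 0, 0, 1]

/-- The second unipotent group. -/
def g2 (μ t : T) : Matrix (Fin 3) (Fin 3) T := !![1, μ * t, 0; 0, 1, 0; 2 * t, μ * t ^ 2, 1]

/-- A product of three unipotent groups. -/
def gg (μ : T) (t : Fin 3 → T) : Matrix (Fin 3) (Fin 3) T :=
  g1 μ (t 0) * (g2 μ (t 1) * (g2 μ 1 * (g1 μ (t 2) * g2 μ (-1))))

theorem Pt.g1 {μ : T} {M : Matrix (Fin 3) (Fin 3) T} (h : Pt μ M) (t : T) :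
    Pt μ (g1 μ t * M * (g1 μ t)ᵀ) := h.conj _ (by
  simp [NP.g1, mul_apply, Fin.sum_univ_three, vecMul, dotProduct]
  linear_combination h.tr + μ * t * h.symm 2 0)

theorem Pt.g2 {μ : T} {M : Matrix (Fin 3) (Fin 3) T} (h : Pt μ M) (t : T) :
    Pt μ (g2 μ t * M * (g2 μ t)ᵀ) := h.conj _ (by
  simp [NP.g2, mul_apply, Fin.sum_univ_three, vecMul, dotProduct]
  linear_combination h.tr + μ * t * h.symm 0 1)

theorem Pt.gg {μ : T} {M : Matrix (Fin 3) (Fin 3) T} (h : Pt μ M) (t : Fin 3 → T) :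
    Pt μ (gg μ t * M * (gg μ t)ᵀ) := by
  simpa only [NP.gg, transpose_mul, Matrix.mul_assoc] using
    ((((h.g2 (-1)).g1 (t 2)).g2 1).g2 (t 1)).g1 (t 0)

theorem gg_map (ψ : A →+* T) (μ : A) (t : Fin 3 → A) :
    (gg μ t).map ψ = gg (ψ μ) fun a => ψ (t a) := by
  have h1 : ∀ t, (g1 μ t).map ψ = g1 (ψ μ) (ψ t) := fun t => by
    ext a b
    fin_cases a <;> fin_cases b <;> simp [g1, map_ofNat]
  have h2 : ∀ t, (g2 μ t).map ψ = g2 (ψ μ) (ψ t) := fun t => by
    ext a b
    fin_cases a <;> fin_cases b <;> simp [g2, map_ofNat]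
  simp only [gg, Matrix.map_mul, h1, h2, map_one, map_neg]

theorem gg_zero (μ : T) : gg μ (fun _ => 0) = 1 := by
  ext a b
  fin_cases a <;> fin_cases b <;> simp [gg, g1, g2]
  all_goals ring

theorem gg_mulVec (μ : T) (t v : Fin 3 → T) (h : ∀ a b, t a * t b = 0) : gg μ t *ᵥ v =
    ![v 0 + t 0 * (μ * v 2) + t 1 * (μ * v 1) + t 2 * (μ * v 2 - μ ^ 2 * v 1),
      v 1 + t 0 * (2 * v 0) + t 2 * (2 * v 0 - 2 * μ * v 1),
      v 2 + t 1 * (2 * v 0) + t 2 * (2 * μ * v 2 - 2 * μ * v 0)] := by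
  have h1 : ∀ a (v : Fin 3 → T), g1 μ (t a) *ᵥ v =
      ![v 0 + t a * (μ * v 2), v 1 + t a * (2 * v 0), v 2] := fun a v => by
    ext b
    fin_cases b <;> simp [g1, mulVec, dotProduct, Fin.sum_univ_three, sq, h] <;> ring
  have h2 : ∀ s (v : Fin 3 → T), g2 μ s *ᵥ v =
      ![v 0 + s * (μ * v 1), v 1, v 2 + s * (2 * v 0) + μ * s ^ 2 * v 1] := fun a v => by
    ext b
    fin_cases b <;> simp [g2, mulVec, dotProduct, Fin.sum_univ_three] <;> ring
  simp only [gg, ← mulVec_mulVec, h1, h2, cons_val]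
  ext b
  fin_cases b <;> simp
  · linear_combination (2 * μ * v 0 - 2 * μ ^ 2 * v 1) * h 1 2 + 2 * μ ^ 2 * (v 2 - v 0) * h 0 2 +
      (2 * μ * v 0 + μ ^ 2 * (2 * v 0 * t 1 * t 2 + v 1 * t 1 + 2 * t 2 * v 2) -
        2 * μ ^ 3 * v 1 * t 2 * (1 + t 1)) * h 0 1
  · linear_combination (2 * μ * v 2 + 4 * μ * v 0 * t 1 - 2 * μ ^ 2 * v 1 * (1 + 2 * t 1)) * h 0 2 +
      2 * μ * v 1 * h 0 1
  · linear_combination (2 * μ * v 2 + 2 * μ * v 0 * t 1 - 2 * μ ^ 2 * v 1 * (1 + t 1)) * h 1 2 +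
      μ * v 1 * h 1 1

variable {k : Type} [Field k] [IsAlgClosed k] [CharZero k]

theorem exists_vec {μ : DualNumber k} {M : Matrix (Fin 3) (Fin 3) (DualNumber k)} (h : Pt μ M) :
    ∃ V, M = vecMulVec V V := by
  obtain ⟨i, hi⟩ : ∃ i, (M i i).fst ≠ 0 := by
    by_contra! h0
    have h1 := congrArg fst h.tr
    have h2 := congrArg fst (h.mul_diag 1 2 2)
    simp only [fst_mul, fst_sub, fst_one, h0, zero_mul, mul_self_eq_zero] at h1 h2
    simp [h2] at h1
  obtain ⟨r, hr⟩ := IsAlgClosed.exists_eq_mul_self (M i i).fst⁻¹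
  let ρ : DualNumber k := inl r + inr (-(r ^ 3 * (M i i).snd) / 2)
  have h1 : r * r * (M i i).fst = 1 := by rw [← hr, inv_mul_cancel₀ hi]
  have h2 : ρ * ρ * M i i = 1 := by
    ext
    · simpa [ρ] using h1
    · simp [ρ]
      linear_combination -(r ^ 2 * (M i i).snd) * h1
  refine ⟨fun a => ρ * M i a, Matrix.ext fun a b => ?_⟩
  rw [vecMulVec_apply]
  linear_combination -(ρ * ρ) * h.mul_diag i a b - M a b * h2

omit [IsAlgClosed k] in
theorem exists_dir (μ : k) {V : Fin 3 → DualNumber k} (h : V 0 * V 0 - inl μ * (V 1 * V 2) = 1) :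
    ∃ w : Fin 3 → k, gg (inl μ : DualNumber k) (fun a => inr (w a)) *ᵥ (fun a => inl (V a).fst) =
      V := by
  have h1 := congrArg fst h
  have h2 := congrArg snd h
  simp at h1 h2
  suffices ∃ w : Fin 3 → k, w 0 * (μ * (V 2).fst) + w 1 * (μ * (V 1).fst) +
      w 2 * (μ * (V 2).fst - μ ^ 2 * (V 1).fst) = (V 0).snd ∧
      w 0 * (2 * (V 0).fst) + w 2 * (2 * (V 0).fst - 2 * μ * (V 1).fst) = (V 1).snd ∧
      w 1 * (2 * (V 0).fst) + w 2 * (2 * μ * (V 2).fst - 2 * μ * (V 0).fst) = (V 2).snd by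
    obtain ⟨w, h3, h4, h5⟩ := this
    refine ⟨w, ?_⟩
    rw [gg_mulVec _ _ _ fun a b => inr_mul_inr k _ _]
    funext a
    have h6 : fst (2 : DualNumber k) = 2 := rfl
    fin_cases a <;> ext <;> simp [*]
  by_cases h0 : (V 0).fst = 0
  · refine ⟨![-(V 1).fst * ((V 0).snd - (V 1).snd * (V 2).fst / 2 *
      (μ * (V 2).fst - μ ^ 2 * (V 1).fst)), 0, (V 1).snd * (V 2).fst / 2], ?_⟩
    simp only [h0, cons_val] at h1 h2 ⊢
    refine ⟨?_, ?_, ?_⟩
    · linear_combination ((V 0).snd - (V 1).snd * (V 2).fst / 2 *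
        (μ * (V 2).fst - μ ^ 2 * (V 1).fst)) * h1
    · linear_combination (V 1).snd * h1
    · linear_combination (V 2).snd * h1 - (V 2).fst * h2
  · refine ⟨![(V 1).snd / (2 * (V 0).fst), (V 2).snd / (2 * (V 0).fst), 0], ?_⟩
    simp only [cons_val]
    refine ⟨?_, ?_, ?_⟩ <;> field_simp
    · linear_combination -h2
    · ring
    · ring

theorem exists_spray (μ : k) : ∃ φ : Rg μ →+* MvPolynomial (Fin 3) (Rg μ),
    φ.comp (cst μ) = C.comp (cst μ) ∧ constantCoeff.comp φ = RingHom.id _ ∧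
    ∀ v : Rg μ →+* DualNumber k, v.comp (cst μ) = algebraMap k _ → ∃ w : Fin 3 → k,
      (eval₂Hom ((algebraMap k _).comp ((fstHom k k k).toRingHom.comp v))
        fun a => (inr (w a) : DualNumber k)).comp φ = v := by
  let φ : Rg μ →+* MvPolynomial (Fin 3) (Rg μ) :=
    lift (T := MvPolynomial (Fin 3) (Rg μ)) (μ := μ) (C.comp (cst μ))
      (((pt μ).map (T := MvPolynomial (Fin 3) (Rg μ)) C).gg X)
  have h1 : ∀ a, φ (cst μ a) = C (cst μ a) := lift_cst _ _
  have h2 : ∀ {T : Type} [CommRing T] (θ : MvPolynomial (Fin 3) (Rg μ) →+* T) a b,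
      θ (φ (mat μ a b)) = (gg (θ (C (cst μ μ))) (fun a => θ (X a)) * (mat μ).map (θ.comp C) *
        (gg (θ (C (cst μ μ))) fun a => θ (X a))ᵀ) a b := fun θ a b => by
    rw [lift_mat, ← map_apply (f := θ), Matrix.map_mul, Matrix.map_mul, transpose_map, gg_map]
    rfl
  refine ⟨φ, lift_comp_cst _ _, rg_ext (fun a => by simp [h1]) fun a b => ?_, fun v hv => ?_⟩
  · rw [RingHom.comp_apply, h2]
    simp [gg_zero]
  · have h3 : ∀ a, v (cst μ a) = inl a := DFunLike.congr_fun hv
    have H := (pt μ).map v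
    obtain ⟨V, hV⟩ := exists_vec H
    have h4 : ∀ a b, v (mat μ a b) = V a * V b := fun a b => congrFun (congrFun hV a) b
    obtain ⟨w, hw⟩ := exists_dir μ (V := V) (by simpa [h3, h4] using H.tr)
    refine ⟨w, rg_ext (fun a => by simp [h1, h3, algebraMap_eq_inl]) fun a b => ?_⟩
    rw [RingHom.comp_apply, h2, eval₂Hom_comp_C]
    have h5 : (mat μ).map ((algebraMap k (DualNumber k)).comp ((fstHom k k k).toRingHom.comp v)) =
        vecMulVec (fun a => inl (V a).fst) fun a => inl (V a).fst := Matrix.ext fun a b => by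
      simp [vecMulVec_apply, h4, algebraMap_eq_inl, inl_mul]
    rw [h5, mul_vecMulVec, vecMulVec_mul, vecMul_transpose]
    simp only [eval₂Hom_C, eval₂Hom_X', RingHom.comp_apply, h3]
    exact (congrArg (fun u => vecMulVec u u a b) hw).trans (h4 a b).symm

end Pool.Agent.MP_e8e0b6_ag.NP

end MrgPart2

-- ======== part 3: formerly Pool.Agent.MP_e8e0b6_ag.NP.Cone
section MrgPart3

/-!
The coordinate ring of the quadric `x ^ 2 - μ y z = 1`.
-/

open MvPolynomial

namespace Pool.Agent.MP_e8e0b6_ag.NP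

variable {A B T : Type} [CommRing A] [CommRing B] [CommRing T]

/-- The coordinate ring. -/
abbrev Cn (μ : A) : Type :=
  MvPolynomial (Fin 3) A ⧸ Ideal.span {(X 0 ^ 2 - C μ * X 1 * X 2 - 1 : MvPolynomial (Fin 3) A)}

/-- The constants. -/
noncomputable def ccst (μ : A) : A →+* Cn μ := (Ideal.Quotient.mk _).comp C

/-- The coordinates. -/
noncomputable def vec (μ : A) (a : Fin 3) : Cn μ := Ideal.Quotient.mk _ (X a)

theorem vec_eq (μ : A) : vec μ 0 ^ 2 - ccst μ μ * vec μ 1 * vec μ 2 = 1 :=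
  Ideal.Quotient.eq.2 (Ideal.subset_span rfl)

/-- The universal property. -/
noncomputable def clift {μ : A} (ψ : A →+* T) (v : Fin 3 → T)
    (h : v 0 ^ 2 - ψ μ * v 1 * v 2 = 1) : Cn μ →+* T :=
  Ideal.Quotient.lift _ (eval₂Hom ψ v) fun _ hp => (Ideal.span_le (I := RingHom.ker _)).2 (by
    rintro _ rfl
    simpa [sub_eq_zero] using h) hp

section
variable {μ : A} (ψ : A →+* T) (v : Fin 3 → T) (h : v 0 ^ 2 - ψ μ * v 1 * v 2 = 1)

theorem clift_cst (a : A) : clift ψ v h (ccst μ a) = ψ a := eval₂Hom_C _ _ _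

theorem clift_vec (a : Fin 3) : clift ψ v h (vec μ a) = v a := eval₂Hom_X' _ _ _

theorem cn_ext {f g : Cn μ →+* T} (h1 : ∀ a, f (ccst μ a) = g (ccst μ a))
    (h2 : ∀ a, f (vec μ a) = g (vec μ a)) : f = g :=
  Ideal.Quotient.ringHom_ext (ringHom_ext h1 h2)

theorem map_vec_eq (f : Cn μ →+* T) :
    f (vec μ 0) ^ 2 - f (ccst μ μ) * f (vec μ 1) * f (vec μ 2) = 1 := by
  simpa only [map_sub, map_mul, map_pow, map_one] using congrArg f (vec_eq μ)

end

open CategoryTheory Limits in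
theorem isPushout_of {R : Type} [CommRing R] {f : R →+* A} {g : R →+* B} {i : A →+* T} {j : B →+* T}
    (w : ∀ x, i (f x) = j (g x))
    (h1 : ∀ (U : Type) [CommRing U] (p : A →+* U) (q : B →+* U), (∀ x, p (f x) = q (g x)) →
      ∃ m : T →+* U, (∀ x, m (i x) = p x) ∧ ∀ x, m (j x) = q x)
    (h2 : ∀ (U : Type) [CommRing U] (m n : T →+* U), (∀ x, m (i x) = n (i x)) →
      (∀ x, m (j x) = n (j x)) → m = n) : IsPushout (CommRingCat.ofHom f) (CommRingCat.ofHom g)
      (CommRingCat.ofHom i) (CommRingCat.ofHom j) := by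
  choose m h3 h4 using fun s : PushoutCocone (CommRingCat.ofHom f) (CommRingCat.ofHom g) =>
    h1 _ s.inl.hom s.inr.hom (DFunLike.congr_fun (congrArg CommRingCat.Hom.hom s.condition))
  exact ⟨⟨CommRingCat.hom_ext (RingHom.ext w)⟩, ⟨PushoutCocone.IsColimit.mk _
    (fun s => CommRingCat.ofHom (m s)) (fun s => CommRingCat.hom_ext (RingHom.ext (h3 s)))
    (fun s => CommRingCat.hom_ext (RingHom.ext (h4 s))) fun s n h5 h6 => CommRingCat.hom_ext
      (h2 _ _ _ (fun x => (DFunLike.congr_fun (congrArg CommRingCat.Hom.hom h5) x).trans (h3 s x).symm)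
        fun x => (DFunLike.congr_fun (congrArg CommRingCat.Hom.hom h6) x).trans (h4 s x).symm)⟩⟩

/-- Base change. -/
noncomputable def cbc (μ : A) (τ : A →+* B) : Cn μ →+* Cn (τ μ) :=
  clift ((ccst (τ μ)).comp τ) (vec (τ μ)) (vec_eq (τ μ))

theorem cbc_cst (μ : A) (τ : A →+* B) (a : A) : cbc μ τ (ccst μ a) = ccst (τ μ) (τ a) :=
  clift_cst _ _ _ _

theorem cbc_vec (μ : A) (τ : A →+* B) (a : Fin 3) : cbc μ τ (vec μ a) = vec (τ μ) a :=
  clift_vec _ _ _ _

theorem isPushout_cn (μ : A) (τ : A →+* B) : CategoryTheory.IsPushout (CommRingCat.ofHom (ccst μ))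
    (CommRingCat.ofHom τ) (CommRingCat.ofHom (cbc μ τ)) (CommRingCat.ofHom (ccst (τ μ))) := by
  refine isPushout_of (cbc_cst μ τ) (fun U _ p q h => ?_) fun U _ m n h1 h2 =>
    cn_ext h2 fun a => by rw [← cbc_vec, h1]
  let m := clift q (fun a => p (vec μ a)) (h μ ▸ map_vec_eq p)
  refine ⟨m, DFunLike.congr_fun
    (cn_ext (f := m.comp (cbc μ τ)) (g := p) (fun a => ?_) fun a => ?_), clift_cst _ _ _⟩
  · rw [RingHom.comp_apply, cbc_cst, clift_cst, h]
  · rw [RingHom.comp_apply, cbc_vec, clift_vec]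

/-- The parametrisation of the quadric from the point `(-e, 0, 0)`. -/
noncomputable def par {μ : A} (ψ : A →+* T) {e : T} (he : e * e = 1) (y w : T) : Cn μ →+* T :=
  clift ψ ![e + ψ μ * y * w, y, w * (2 * e + ψ μ * y * w)] (by
    simp only [Matrix.cons_val]
    linear_combination he)

theorem par_cst {μ : A} (ψ : A →+* T) {e : T} (he : e * e = 1) (y w : T) (a : A) :
    par ψ he y w (ccst μ a) = ψ a := clift_cst _ _ _ _

theorem map_par {μ : A} (ψ : A →+* T) {e : T} (he : e * e = 1) (y w : T) (θ : T →+* B)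
    (f : Cn μ →+* B) (h1 : ∀ a, θ (ψ a) = f (ccst μ a)) (h2 : θ y = f (vec μ 1)) {u : B}
    (hu : (f (vec μ 0) + θ e) * u = 1) (h3 : θ w = f (vec μ 2) * u) :
    θ.comp (par ψ he y w) = f := by
  have h4 := congrArg θ he
  rw [map_mul, map_one] at h4
  have h5 : θ e + f (ccst μ μ) * f (vec μ 1) * (f (vec μ 2) * u) = f (vec μ 0) := by
    linear_combination -u * map_vec_eq f + (f (vec μ 0) - θ e) * hu + u * h4
  refine cn_ext (fun a => (congrArg θ (par_cst _ _ _ _ _)).trans (h1 a)) fun a => ?_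
  rw [RingHom.comp_apply, par, clift_vec]
  fin_cases a
  · simpa [h1, h2, h3] using h5
  · simpa using h2
  · simp [h1, h2, h3, map_ofNat]
    linear_combination f (vec μ 2) * u * h5 + f (vec μ 2) * hu

/-- The restriction to a chart. -/
noncomputable def cres (μ : A) {e : A} (he : e * e = 1) :
    Cn μ →+* Localization.Away (2 * C e + C μ * X 0 * X 1 : MvPolynomial (Fin 2) A) :=
  par ((algebraMap (MvPolynomial (Fin 2) A) _).comp C) (e := algebraMap _ _ (C e : MvPolynomial (Fin 2) A))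
    (by rw [← map_mul, ← map_mul, he, map_one, map_one]) (algebraMap _ _ (X 0 : MvPolynomial (Fin 2) A))
    (algebraMap _ _ (X 1 : MvPolynomial (Fin 2) A))

theorem cres_cst (μ : A) {e : A} (he : e * e = 1) (a : A) :
    cres μ he (ccst μ a) = algebraMap (MvPolynomial (Fin 2) A) _ (C a) := par_cst _ _ _ _ _

theorem cres_vec (μ : A) {e : A} (he : e * e = 1) (a : Fin 3) :
    cres μ he (vec μ a) = algebraMap (MvPolynomial (Fin 2) A) _
      (![C e + C μ * X 0 * X 1, X 0, X 1 * (2 * C e + C μ * X 0 * X 1)] a) := by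
  rw [cres, par, clift_vec]
  fin_cases a <;> simp [map_ofNat]

theorem exists_cchart (μ : A) {e : A} (he : e * e = 1) :
    ∃ κ : Localization.Away (2 * C e + C μ * X 0 * X 1 : MvPolynomial (Fin 2) A) →+*
      Localization.Away (vec μ 0 + ccst μ e), Function.Bijective κ ∧
      κ.comp (cres μ he) = algebraMap _ _ := by
  let R := Localization.Away (vec μ 0 + ccst μ e)
  let q : MvPolynomial (Fin 2) A := 2 * C e + C μ * X 0 * X 1
  let r := algebraMap (Cn μ) R
  let w : R := IsLocalization.Away.invSelf (vec μ 0 + ccst μ e)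
  have hw : r (vec μ 0 + ccst μ e) * w = 1 := IsLocalization.Away.mul_invSelf _
  let g : MvPolynomial (Fin 2) A →+* R := eval₂Hom (r.comp (ccst μ)) ![r (vec μ 1), r (vec μ 2) * w]
  have h1 : ∀ a, g (C a) = r (ccst μ a) := eval₂Hom_C _ _
  have h2 : g (X 0) = r (vec μ 1) := eval₂Hom_X' _ _ _
  have h3 : g (X 1) = r (vec μ 2) * w := eval₂Hom_X' _ _ _
  have h4 : g q * w = 1 := by
    have h := congrArg (r.comp (ccst μ)) he
    simp only [map_mul, map_one, RingHom.comp_apply] at h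
    rw [map_add] at hw
    simp only [q, map_add, map_mul, h1, h2, h3, map_ofNat]
    linear_combination -w ^ 2 * map_vec_eq r + w ^ 2 * h + ((r (vec μ 0) - r (ccst μ e)) * w + 1) * hw
  let κ : Localization.Away q →+* R := IsLocalization.Away.lift q (.of_mul_eq_one _ h4)
  have h5 : ∀ p, κ (algebraMap _ _ p) = g p := IsLocalization.Away.lift_eq _ _
  have h7 : κ.comp (cres μ he) = r := map_par _ _ _ _ κ r (fun a => (h5 _).trans (h1 a))
    ((h5 _).trans h2) (u := w) (by rw [h5, h1, ← map_add, hw]) ((h5 _).trans h3)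
  have h8 : cres μ he (vec μ 0 + ccst μ e) = algebraMap _ _ q := by
    rw [map_add, cres_vec, cres_cst, ← map_add]
    congr 1
    simp only [q, Matrix.cons_val]
    ring
  let l : R →+* Localization.Away q := IsLocalization.Away.lift (vec μ 0 + ccst μ e)
    (g := cres μ he) (h8 ▸ IsLocalization.Away.algebraMap_isUnit q)
  have h9 : ∀ p, l (r p) = cres μ he p := IsLocalization.Away.lift_eq _ _
  have h10 : l.comp κ = RingHom.id _ := IsLocalization.ringHom_ext (.powers q)
    (ringHom_ext (fun a => (congrArg l ((h5 _).trans (h1 a))).trans ((h9 _).trans (cres_cst _ _ _)))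
      fun j => by
        have := congrArg l hw
        rw [map_mul, h9, h8, map_one] at this
        rw [RingHom.comp_apply, RingHom.comp_apply, h5]
        fin_cases j
        · exact (congrArg l h2).trans ((h9 _).trans (cres_vec _ _ _))
        · refine (congrArg l h3).trans ?_
          rw [map_mul, h9, cres_vec]
          exact (congrArg (· * _) (map_mul _ _ _)).trans
            ((mul_assoc _ _ _).trans ((congrArg _ this).trans (mul_one _))))
  have h11 : κ.comp l = RingHom.id _ := IsLocalization.ringHom_ext (.powers (vec μ 0 + ccst μ e))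
    (RingHom.ext fun p => (congrArg κ (h9 p)).trans (DFunLike.congr_fun h7 p))
  exact ⟨κ, Function.bijective_iff_has_inverse.2
    ⟨l, DFunLike.congr_fun h10, DFunLike.congr_fun h11⟩, h7⟩

theorem ccoprime (μ : A) (h2 : IsUnit (2 : A)) :
    IsCoprime (vec μ 0 + ccst μ 1) (vec μ 0 + ccst μ (-1)) := by
  obtain ⟨u, hu⟩ := (h2.map (ccst μ)).exists_left_inv
  rw [map_ofNat] at hu
  exact ⟨u, -u, by rw [map_neg, map_one]; linear_combination hu⟩

theorem smooth_ccst (μ : A) (h2 : IsUnit (2 : A)) : (ccst μ).Smooth := by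
  refine RingHom.Smooth.ofLocalizationSpanTarget _
    (Set.range fun e : {e : A // e * e = 1} => vec μ 0 + ccst μ e.1) ?_ ?_
  · obtain ⟨a, b, h⟩ := ccoprime μ h2
    rw [Ideal.eq_top_iff_one, ← h]
    exact add_mem (Ideal.mul_mem_left _ _ (Ideal.subset_span ⟨⟨1, mul_one 1⟩, rfl⟩))
      (Ideal.mul_mem_left _ _ (Ideal.subset_span ⟨⟨-1, by simp⟩, rfl⟩))
  · rintro ⟨_, ⟨e, he⟩, rfl⟩
    obtain ⟨κ, h1, h2⟩ := exists_cchart μ he
    rw [← h2, RingHom.comp_assoc, show (cres μ he).comp (ccst μ) =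
      (algebraMap (MvPolynomial (Fin 2) A) _).comp C from RingHom.ext (cres_cst μ he)]
    exact ((RingHom.smooth_algebraMap.2 (⟨inferInstance, inferInstance⟩ :
      Algebra.Smooth A (MvPolynomial (Fin 2) A))).comp
      (RingHom.smooth_algebraMap.2 (.of_isLocalization_Away
        (2 * C e + C μ * X 0 * X 1 : MvPolynomial (Fin 2) A)))).comp (.of_bijective h1)

theorem isDomain_cn [IsDomain A] {μ : A} (h0 : μ ≠ 0) (h2 : IsUnit (2 : A)) : IsDomain (Cn μ) := by
  have h1 : ∀ e : A, e * e = 1 → Submonoid.powers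
      (2 * C e + C μ * X 0 * X 1 : MvPolynomial (Fin 2) A) ≤ nonZeroDivisors _ := fun e he =>
    powers_le_nonZeroDivisors_of_noZeroDivisors fun h => by
      have := congrArg constantCoeff h
      simp [map_ofNat, h2.ne_zero, left_ne_zero_of_mul_eq_one he] at this
  have h3 : ∀ e (he : e * e = 1) x, cres μ he x = 0 →
      ∃ n : ℕ, (vec μ 0 + ccst μ e) ^ n * x = 0 := fun e he x h => by
    obtain ⟨κ, -, h2⟩ := exists_cchart μ he
    obtain ⟨⟨_, n, rfl⟩, h⟩ := (IsLocalization.map_eq_zero_iff (.powers (vec μ 0 + ccst μ e))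
      (Localization.Away (vec μ 0 + ccst μ e)) x).1 (by rw [← h2, RingHom.comp_apply, h, map_zero])
    exact ⟨n, h⟩
  have he : (-1 : A) * -1 = 1 := by simp
  have := IsLocalization.isDomain_localization (h1 _ he)
  have := IsLocalization.isDomain_localization (h1 _ (mul_one 1))
  have h4 : cres μ he (vec μ 0 + ccst μ 1) ≠ 0 := by
    rw [map_add, cres_vec, cres_cst, ← map_add, map_ne_zero_iff _ (IsLocalization.injective _ (h1 _ he))]
    simp [h0]
  refine Function.Injective.isDomain (cres μ (mul_one 1))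
    ((injective_iff_map_eq_zero _).2 fun x hx => ?_)
  obtain ⟨n, hn⟩ := h3 _ _ x hx
  have h5 := congrArg (cres μ he) hn
  rw [map_mul, map_pow, map_zero] at h5
  obtain ⟨m, hm⟩ := h3 _ _ x ((mul_eq_zero.1 h5).resolve_left (pow_ne_zero _ h4))
  obtain ⟨a, b, h⟩ := (ccoprime μ h2).pow (m := n) (n := m)
  linear_combination a * hn + b * hm - x * h

end Pool.Agent.MP_e8e0b6_ag.NP

end MrgPart3

-- ======== part 4: formerly Pool.Agent.MP_e8e0b6_ag.NP.Twist
section MrgPart4

/-!
The double cover of the complement of a conic, and the quotient by the sign of a product of two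
quadrics.
-/

open MvPolynomial Matrix Sum

namespace Pool.Agent.MP_e8e0b6_ag.NP

variable {A B T : Type} [CommRing A] [CommRing B] [CommRing T]

/-- The double cover. -/
noncomputable def cov (μ : A) : Rg μ →+* Cn μ :=
  lift (ccst μ) (Pt.of_vec (u := 1) (v := vec μ) ((one_mul _).trans (vec_eq μ)))

theorem cov_cst (μ a : A) : cov μ (cst μ a) = ccst μ a := lift_cst _ _ _

theorem cov_mat (μ : A) (a b : Fin 3) : cov μ (mat μ a b) = vec μ a * vec μ b :=
  (lift_mat _ _ _ _).trans (by rw [of_apply, one_mul])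

theorem finitePresentation_cov (μ : A) (h2 : IsUnit (2 : A)) : (cov μ).FinitePresentation :=
  .of_comp_finiteType (cst μ) (by
    rw [show (cov μ).comp (cst μ) = ccst μ from RingHom.ext (cov_cst μ)]
    exact (smooth_ccst μ h2).finitePresentation)
    (RingHom.FiniteType.of_finitePresentation (smooth_cst μ).finitePresentation)

theorem finite_cov (μ : A) (h2 : IsUnit (2 : A)) : (cov μ).Finite := by
  refine RingHom.IsIntegral.to_finite (fun x => ?_)
    (RingHom.FiniteType.of_finitePresentation (finitePresentation_cov μ h2))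
  obtain ⟨p, rfl⟩ := Ideal.Quotient.mk_surjective x
  induction p using MvPolynomial.induction_on with
  | C a => exact cov_cst μ a ▸ (cov μ).isIntegralElem_map
  | add p q hp hq =>
    rw [map_add]
    exact hp.add _ hq
  | mul_X p a hp =>
    rw [map_mul]
    refine hp.mul _ ⟨Polynomial.X ^ 2 - Polynomial.C (mat μ a a),
      Polynomial.monic_X_pow_sub_C _ two_ne_zero, ?_⟩
    rw [Polynomial.eval₂_sub, Polynomial.eval₂_X_pow, Polynomial.eval₂_C, cov_mat]
    exact sub_eq_zero.2 (sq _)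

theorem etale_cov (μ : A) (h2 : IsUnit (2 : A)) : (cov μ).Etale := by
  let _ := (cov μ).toAlgebra
  refine ⟨Algebra.FormallyEtale.iff_comp_bijective.2 fun T _ _ I hI => ?_,
    finitePresentation_cov μ h2⟩
  let g := algebraMap (Rg μ) T
  obtain ⟨h, hh⟩ := (h2.map (g.comp (cst μ))).exists_left_inv
  rw [map_ofNat] at hh
  have h0 : ∀ x : T, Ideal.Quotient.mk I x = 1 → (x - 1) ^ 2 = 0 := fun x hx =>
    (Ideal.mem_bot).1 (hI ▸ Ideal.pow_mem_pow (Ideal.Quotient.eq.1 hx) 2)
  have h1 : ∀ {U : Type} [CommRing U] [Algebra (Rg μ) U] (F : Cn μ →ₐ[Rg μ] U),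
      (∀ a, F (ccst μ a) = algebraMap _ U (cst μ a)) ∧
      (∀ a b, F (vec μ a) * F (vec μ b) = algebraMap _ U (mat μ a b)) ∧
      F (vec μ 0) ^ 2 - algebraMap _ U (cst μ μ) * F (vec μ 1) * F (vec μ 2) = 1 := fun F => by
    have h : ∀ a, F (ccst μ a) = algebraMap _ _ (cst μ a) := fun a => by
      rw [← cov_cst]
      exact F.commutes _
    exact ⟨h, fun a b => by rw [← map_mul, ← cov_mat]; exact F.commutes _,
      h μ ▸ map_vec_eq F.toRingHom⟩
  refine ⟨fun F G hF => ?_, fun F => ?_⟩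
  · obtain ⟨h3, h4, h5⟩ := h1 F
    obtain ⟨h6, h7, h8⟩ := h1 G
    have h9 : ∀ x, Ideal.Quotient.mk I (F x) = Ideal.Quotient.mk I (G x) := DFunLike.congr_fun hF
    let ρ := F (vec μ 0) * G (vec μ 0) - g (cst μ μ) * F (vec μ 1) * G (vec μ 2)
    have h10 : ∀ a, G (vec μ a) = ρ * F (vec μ a) := fun a => by
      linear_combination -G (vec μ a) * h8 - G (vec μ 0) * ((h4 a 0).trans (h7 a 0).symm) +
        g (cst μ μ) * G (vec μ 2) * ((h4 a 1).trans (h7 a 1).symm)
    have h11 := h0 ρ (by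
      have := congrArg (Ideal.Quotient.mk I) h8
      simp only [ρ, map_sub, map_mul, map_pow, map_one, h9] at this ⊢
      linear_combination this)
    rw [h10, h10 1, h10 2] at h8
    have h12 : ρ = 1 := by linear_combination h * h8 - h * ρ ^ 2 * h5 - h * h11 - (ρ - 1) * hh
    exact AlgHom.coe_ringHom_injective (cn_ext (fun a => (h3 a).trans (h6 a).symm) fun a =>
      ((h10 a).trans (show ρ * F (vec μ a) = F (vec μ a) by rw [h12, one_mul])).symm)
  · obtain ⟨h3, h4, h5⟩ := h1 F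
    choose t ht using fun a => Ideal.Quotient.mk_surjective (F (vec μ a))
    have H := (pt μ).map g
    let M : Fin 3 → Fin 3 → T := fun a b => g (mat μ a b)
    let m := g (cst μ μ)
    have h6 : ∀ a b, Ideal.Quotient.mk I (M a b) = F (vec μ a) * F (vec μ b) := fun a b =>
      (h4 a b).symm
    change _ - Ideal.Quotient.mk I m * _ * _ = 1 at h5
    let κ := M 0 0 * t 0 ^ 2 - 2 * m * M 0 1 * t 0 * t 2 + m ^ 2 * M 1 1 * t 2 ^ 2
    have h7 : Ideal.Quotient.mk I κ = 1 := by
      simp only [κ, map_sub, map_add, map_mul, map_pow, map_ofNat, h6, ht]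
      linear_combination (F (vec μ 0) ^ 2 -
        Ideal.Quotient.mk I m * F (vec μ 1) * F (vec μ 2) + 1) * h5
    have h8 := h0 κ h7
    let v : Fin 3 → T := fun a => (1 - h * (κ - 1)) * (M a 0 * t 0 - m * M a 1 * t 2)
    have h9 : ∀ a b, v a * v b = M a b := fun a b => by
      have e : ∀ c d, M a c * M b d = M a b * M c d := fun c d =>
        (congrArg _ (H.symm b d)).trans ((H.rk a c d b).trans (congrArg _ (H.symm d c)))
      have e1 : M 1 0 = M 0 1 := H.symm 1 0
      have e2 : (1 - h * (κ - 1)) ^ 2 * κ = 1 := by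
        linear_combination (h ^ 2 * κ - 1) * h8 - (κ - 1) * κ * hh
      linear_combination (1 - h * (κ - 1)) ^ 2 * (t 0 ^ 2 * e 0 0 - m * t 0 * t 2 * (e 0 1 + e 1 0) +
        m ^ 2 * t 2 ^ 2 * e 1 1 - m * t 0 * t 2 * M a b * e1) + M a b * e2
    let G := clift (g.comp (cst μ)) v (by
      have : M 0 0 - m * M 1 2 = 1 := H.tr
      change v 0 ^ 2 - m * v 1 * v 2 = 1
      linear_combination this + h9 0 0 - m * h9 1 2)
    have h10 : G.comp (cov μ) = g := rg_ext (fun a => by rw [RingHom.comp_apply, cov_cst, clift_cst]; rfl)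
      fun a b => by rw [RingHom.comp_apply, cov_mat, map_mul, clift_vec, clift_vec, h9]
    refine ⟨⟨G, DFunLike.congr_fun h10⟩, AlgHom.coe_ringHom_injective (cn_ext (fun a => ?_)
      fun a => ?_)⟩
    · change Ideal.Quotient.mk I (G _) = F _
      rw [clift_cst, h3]
      rfl
    · change Ideal.Quotient.mk I (G _) = F _
      rw [clift_vec]
      simp only [v, map_sub, map_mul, map_one, h6, ht, h7]
      linear_combination F (vec μ a) * h5

/-- The matrices `V Vᵀ`, up to a twist, for `V = (a, b, d, x, y, z)` with `a ^ 2 - b d = 1` and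
`x ^ 2 - μ y z = 1`. -/
structure Pt2 (μ : T) (N : Matrix (Fin 3 ⊕ Fin 3) (Fin 3 ⊕ Fin 3) T) : Prop where
  symm : ∀ a b, N a b = N b a
  rk : ∀ a b c d, N a b * N c d = N a d * N c b
  tr1 : N (inl 0) (inl 0) - N (inl 1) (inl 2) = 1
  tr2 : N (inr 0) (inr 0) - μ * N (inr 1) (inr 2) = 1

section
variable {μ : T} {N : Matrix (Fin 3 ⊕ Fin 3) (Fin 3 ⊕ Fin 3) T}

theorem Pt2.map (h : Pt2 μ N) (ψ : T →+* A) : Pt2 (ψ μ) (N.map ψ) :=
  ⟨fun a b => congrArg ψ (h.symm a b), fun a b c d => by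
    simpa only [map_apply, map_mul] using congrArg ψ (h.rk a b c d), by
    simpa only [map_apply, map_sub, map_one] using congrArg ψ h.tr1, by
    simpa only [map_apply, map_mul, map_sub, map_one] using congrArg ψ h.tr2⟩

theorem Pt2.of_vec {u : T} {v w : Fin 3 → T} (h1 : u * (v 0 ^ 2 - v 1 * v 2) = 1)
    (h2 : u * (w 0 ^ 2 - μ * w 1 * w 2) = 1) :
    Pt2 μ (of fun a b => u * Sum.elim v w a * Sum.elim v w b) :=
  ⟨fun a b => by simp only [of_apply]; ring, fun a b c d => by simp only [of_apply]; ring, by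
    simp only [of_apply, elim_inl]; linear_combination h1, by
    simp only [of_apply, elim_inr]; linear_combination h2⟩

theorem Pt2.left (h : Pt2 μ N) {ν : T} (hν : ν = 1) : Pt ν N.toBlocks₁₁ :=
  ⟨fun _ _ => h.symm _ _, fun _ _ _ _ => h.rk _ _ _ _, by rw [hν, one_mul]; exact h.tr1⟩

theorem Pt2.right (h : Pt2 μ N) : Pt μ N.toBlocks₂₂ :=
  ⟨fun _ _ => h.symm _ _, fun _ _ _ _ => h.rk _ _ _ _, h.tr2⟩

theorem Pt2.split (h : Pt2 μ N) {v : Fin 3 → T} (hv : ∀ a b, N (inl a) (inl b) = v a * v b) :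
    ∃ w, ∀ a b, N a b = Sum.elim v w a * Sum.elim v w b := by
  let w : Fin 3 → T := fun a => v 0 * N (inl 0) (inr a) - v 1 * N (inl 2) (inr a)
  have h1 : ∀ a b, N (inl a) (inr b) = v a * w b := fun a b => by
    linear_combination -N (inl a) (inr b) * h.tr1 - h.rk (inl a) (inl 0) (inl 0) (inr b) +
      h.rk (inl a) (inl 1) (inl 2) (inr b) + N (inl 0) (inr b) * hv a 0 -
      N (inl 2) (inr b) * hv a 1 + N (inl a) (inr b) * h.symm (inl 2) (inl 1)
  refine ⟨w, ?_⟩
  rintro (a | a) (b | b)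
  · exact hv a b
  · exact h1 a b
  · exact (h.symm _ _).trans ((h1 b a).trans (mul_comm _ _))
  · have h2 : ∀ c d, N (inr a) (inr b) * N (inl c) (inl d) = v d * w a * (v c * w b) :=
      fun c d => by rw [h.rk, h.symm, h1, h1]
    have h3 := h.tr1
    change _ = w a * w b
    rw [hv, hv] at h3
    linear_combination -N (inr a) (inr b) * h.tr1 + h2 0 0 - h2 1 2 + w a * w b * h3

end

/-- The equations. -/
def rel2 (μ : A) : Set (MvPolynomial ((Fin 3 ⊕ Fin 3) × (Fin 3 ⊕ Fin 3)) A) :=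
  {p | (∃ a b, p = X (a, b) - X (b, a)) ∨
    (∃ a b c d, p = X (a, b) * X (c, d) - X (a, d) * X (c, b)) ∨
    p = X (inl 0, inl 0) - X (inl 1, inl 2) - 1 ∨ p = X (inr 0, inr 0) - C μ * X (inr 1, inr 2) - 1}

/-- The coordinate ring. -/
abbrev Rx (μ : A) : Type := MvPolynomial ((Fin 3 ⊕ Fin 3) × (Fin 3 ⊕ Fin 3)) A ⧸ Ideal.span (rel2 μ)

/-- The constants. -/
noncomputable def xcst (μ : A) : A →+* Rx μ := (Ideal.Quotient.mk _).comp C

/-- The universal matrix. -/
noncomputable def xmat (μ : A) : Matrix (Fin 3 ⊕ Fin 3) (Fin 3 ⊕ Fin 3) (Rx μ) :=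
  of fun a b => Ideal.Quotient.mk _ (X (a, b))

theorem pt2 (μ : A) : Pt2 (xcst μ μ) (xmat μ) :=
  ⟨fun a b => Ideal.Quotient.eq.2 (Ideal.subset_span (.inl ⟨a, b, rfl⟩)),
    fun a b c d => Ideal.Quotient.eq.2 (Ideal.subset_span (.inr (.inl ⟨a, b, c, d, rfl⟩))),
    Ideal.Quotient.eq.2 (Ideal.subset_span (.inr (.inr (.inl rfl)))),
    Ideal.Quotient.eq.2 (Ideal.subset_span (.inr (.inr (.inr rfl))))⟩

/-- The universal property. -/
noncomputable def xlift {μ : A} (ψ : A →+* T) {N : Matrix (Fin 3 ⊕ Fin 3) (Fin 3 ⊕ Fin 3) T}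
    (h : Pt2 (ψ μ) N) : Rx μ →+* T :=
  Ideal.Quotient.lift _ (eval₂Hom ψ fun p => N p.1 p.2) fun _ hp =>
    (Ideal.span_le (I := RingHom.ker _)).2 (by
      rintro _ (⟨a, b, rfl⟩ | ⟨a, b, c, d, rfl⟩ | rfl | rfl)
      · simpa [sub_eq_zero] using h.symm a b
      · simpa [sub_eq_zero] using h.rk a b c d
      · simpa [sub_eq_zero] using h.tr1
      · simpa [sub_eq_zero] using h.tr2) hp

section
variable {μ : A} (ψ : A →+* T) {N : Matrix (Fin 3 ⊕ Fin 3) (Fin 3 ⊕ Fin 3) T} (h : Pt2 (ψ μ) N)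

theorem xlift_cst (a : A) : xlift ψ h (xcst μ a) = ψ a := eval₂Hom_C _ _ _

theorem xlift_mat (a b : Fin 3 ⊕ Fin 3) : xlift ψ h (xmat μ a b) = N a b := eval₂Hom_X' _ _ _

theorem rx_ext {f g : Rx μ →+* T} (h1 : ∀ a, f (xcst μ a) = g (xcst μ a))
    (h2 : ∀ a b, f (xmat μ a b) = g (xmat μ a b)) : f = g :=
  Ideal.Quotient.ringHom_ext (ringHom_ext h1 fun p => h2 p.1 p.2)

end

variable (ι : B →+* A) (μ : A)

/-- The projection to the complement of the conic. -/
noncomputable def proj : Rg (1 : B) →+* Rx μ :=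
  lift ((xcst μ).comp ι) ((pt2 μ).left (map_one _))

theorem proj_cst (a : B) : proj ι μ (cst 1 a) = xcst μ (ι a) := lift_cst _ _ _

theorem proj_mat (a b : Fin 3) : proj ι μ (mat 1 a b) = xmat μ (inl a) (inl b) := lift_mat _ _ _ _

/-- The structure map of the quadric. -/
noncomputable def cstr : B →+* Cn μ := (ccst μ).comp ι

/-- The quotient map. -/
noncomputable def quo : Rx μ →+* Cn (cstr ι μ 1) :=
  xlift ((ccst _).comp (ccst μ)) (Pt2.of_vec (u := 1) (v := vec _)
    (w := fun a => ccst _ (vec μ a)) (by simpa only [map_one, one_mul] using vec_eq (cstr ι μ 1))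
    ((one_mul _).trans (map_vec_eq (ccst (cstr ι μ 1)))))

theorem quo_cst (a : A) : quo ι μ (xcst μ a) = ccst _ (ccst μ a) := xlift_cst _ _ _

theorem quo_mat (a b : Fin 3 ⊕ Fin 3) : quo ι μ (xmat μ a b) =
    Sum.elim (vec _) (fun a => ccst _ (vec μ a)) a * Sum.elim (vec _) (fun a => ccst _ (vec μ a)) b :=
  (xlift_mat _ _ _ _).trans (by rw [of_apply, one_mul])

theorem isPushout_quo : CategoryTheory.IsPushout (CommRingCat.ofHom (cov (1 : B)))
    (CommRingCat.ofHom (proj ι μ)) (CommRingCat.ofHom (cbc 1 (cstr ι μ)))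
    (CommRingCat.ofHom (quo ι μ)) := by
  refine isPushout_of (DFunLike.congr_fun (rg_ext (f := (cbc 1 (cstr ι μ)).comp (cov 1))
    (g := (quo ι μ).comp (proj ι μ)) (fun a => ?_) fun a b => ?_)) (fun U _ p q h => ?_)
    fun U _ m n h1 h2 => ?_
  · rw [RingHom.comp_apply, RingHom.comp_apply, cov_cst, cbc_cst, proj_cst, quo_cst]
    rfl
  · rw [RingHom.comp_apply, RingHom.comp_apply, cov_mat, map_mul, cbc_vec, cbc_vec, proj_mat,
      quo_mat]
    rfl
  · have H := (pt2 μ).map q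
    obtain ⟨w, hw⟩ := H.split (v := fun a => p (vec 1 a)) fun a b => by
      rw [map_apply, ← proj_mat ι, ← h, cov_mat, map_mul]
    let l := clift (q.comp (xcst μ)) w (by
      have := H.tr2
      rw [hw, hw] at this
      simpa [sq, mul_assoc] using this)
    let m : Cn (cstr ι μ 1) →+* U := clift l (fun a => p (vec 1 a))
      (by simpa only [map_one] using map_vec_eq p)
    refine ⟨m, DFunLike.congr_fun (cn_ext (f := m.comp (cbc 1 _)) (g := p) (fun a => ?_)
      fun a => ?_), DFunLike.congr_fun (rx_ext (f := m.comp (quo ι μ)) (g := q) (fun a => ?_)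
      fun a b => ?_)⟩
    · rw [RingHom.comp_apply, cbc_cst, clift_cst, ← cov_cst, h, proj_cst]
      exact clift_cst _ _ _ _
    · rw [RingHom.comp_apply, cbc_vec, clift_vec]
    · rw [RingHom.comp_apply, quo_cst, clift_cst, clift_cst]
      rfl
    · have : ∀ a, m (Sum.elim (vec _) (fun a => ccst _ (vec μ a)) a) =
          Sum.elim (fun a => p (vec 1 a)) w a := by
        rintro (a | a)
        · exact clift_vec _ _ _ _
        · exact (clift_cst _ _ _ _).trans (clift_vec _ _ _ _)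
      rw [RingHom.comp_apply, quo_mat, map_mul, this, this, ← hw, map_apply]
  · have h3 : ∀ a, m (vec _ a) = n (vec _ a) := fun a => by rw [← cbc_vec, h1]
    refine cn_ext (DFunLike.congr_fun (cn_ext (f := m.comp (ccst _)) (g := n.comp (ccst _))
      (fun a => ?_) fun a => ?_)) h3
    · rw [RingHom.comp_apply, RingHom.comp_apply, ← quo_cst, h2]
    · have h4 := h2 (xmat μ (inl 0) (inr a))
      have h5 := h2 (xmat μ (inl 2) (inr a))
      have h6 := map_vec_eq n
      simp only [quo_mat, elim_inl, elim_inr, map_mul, h3, map_one] at h4 h5 h6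
      change m (ccst _ (vec μ a)) = n (ccst _ (vec μ a))
      linear_combination n (vec _ 0) * h4 - n (vec _ 1) * h5 -
        (m (ccst _ (vec μ a)) - n (ccst _ (vec μ a))) * h6

end Pool.Agent.MP_e8e0b6_ag.NP

end MrgPart4

-- ======== part 5: formerly Pool.Agent.MP_e8e0b6_ag.NP.Sch
section MrgPart5

/-!
Sprays on affine schemes, and the lines of a dominating spray.
-/

open AlgebraicGeometry CategoryTheory Limits AffineSpace TrivSqZeroExt

namespace Pool.Agent.MP_e8e0b6_ag.NP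

variable {R T A : Type} [CommRing R] [CommRing T] [CommRing A]

theorem linMap_one {n : ℕ} {W : Scheme.{0}} :
    linMap (1 : Matrix (Fin n) (Fin n) Γ(W, ⊤)) = 𝟙 _ := by
  refine hom_ext ((homOfVector_over _ _).trans (Category.id_comp _).symm) fun a => ?_
  rw [linMap, homOfVector_appTop_coord, Finset.sum_eq_single a]
  · simp
  · intro b _ hb
    simp [Matrix.one_apply_ne' hb]
  · simp

variable {k : Type} [Field k] {Y : Scheme.{0}}

open MvPolynomial in
theorem sp_inv {n : ℕ} (ψ : R →+* T) (c : Fin n → T) :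
    sp (eval₂Hom ψ c) ≫ (SpecIso (Fin n) (.of R)).inv =
      homOfVector (sp ψ) fun a => (Scheme.ΓSpecIso (.of T)).inv (c a) := by
  refine hom_ext ?_ fun a => ?_
  · rw [Category.assoc, SpecIso_inv_over, homOfVector_over, sp_comp, eval₂Hom_comp_C]
  · rw [appTop_comp, SpecIso_inv_appTop_coord, homOfVector_appTop_coord, sp_app, eval₂Hom_X']

open MvPolynomial in
theorem elliptic_of_affine [IsDomain R] (ι : k →+* R) (hι : ι.Smooth) {n : ℕ}
    (φ : R →+* MvPolynomial (Fin n) R) (h1 : φ.comp ι = C.comp ι)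
    (h2 : constantCoeff.comp φ = RingHom.id _)
    (h3 : ∀ v : R →+* DualNumber k, v.comp ι = algebraMap k _ → ∃ w : Fin n → k,
      (eval₂Hom ((algebraMap k _).comp ((fstHom k k k).toRingHom.comp v))
        fun a => (inr (w a) : DualNumber k)).comp φ = v)
    (j : Y ⟶ Spec (.of R)) [IsIso j] : Elliptic (j ≫ sp ι) := by
  have : Smooth (sp ι) := (HasRingHomProperty.Spec_iff (P := @Smooth)).2 hι
  refine ⟨⟨.of_isIso (inv j), inferInstance, inferInstance, inferInstance, inferInstance⟩, ?_⟩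
  let I := SpecIso (Fin n) (.of R)
  have hI : I.hom ≫ sp C = 𝔸(Fin n; Spec (.of R)) ↘ Spec (.of R) :=
    ((Iso.inv_comp_eq I).1 (SpecIso_inv_over (.of R))).symm
  let σ : Spray (j ≫ sp ι) :=
    { E := 𝔸(Fin n; Y)
      p := 𝔸(Fin n; Y) ↘ Y
      zero := zeroSec n Y
      rank := n
      ι := Unit
      U := fun _ => ⊤
      cover := fun _ => ⟨(), trivial⟩
      e := fun _ => map (Fin n) (Scheme.Opens.ι ⊤)
      isPullback := fun _ => isPullback_map _
      zero_eq := fun _ => zero_map _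
      linear := fun _ _ _ _ _ _ => ⟨1, by rw [linMap_one, Category.id_comp]⟩
      s := map (Fin n) j ≫ I.hom ≫ sp φ ≫ inv j
      s_over := by
        simp only [Category.assoc, IsIso.inv_hom_id_assoc]
        rw [sp_comp, h1, ← sp_comp, reassoc_of% hI, map_over_assoc]
      zero_s := by
        have : zeroSec n _ = sp constantCoeff ≫ I.inv := by
          rw [show constantCoeff = eval₂Hom (RingHom.id R) (fun _ : Fin n => 0) from
            ringHom_ext (by simp) (by simp), sp_inv, sp_id]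
          simp only [map_zero]
        rw [zero_map_assoc, this, Category.assoc, Iso.inv_hom_id_assoc, sp_comp_assoc, h2, sp_id,
          Category.id_comp, IsIso.hom_inv_id] }
  refine ⟨σ, fun v hv => ?_⟩
  obtain ⟨u, hu⟩ := sp_surj (v ≫ j)
  obtain ⟨w, hw⟩ := h3 u (sp_inj (by rw [← sp_comp, hu, Category.assoc, hv]; rfl))
  refine ⟨homOfVector (epsProj k ≫ epsPoint k ≫ v)
    fun a => (Scheme.ΓSpecIso (.of (DualNumber k))).inv (inr (w a)), homOfVector_over _ _, ?_, ?_⟩
  · refine hom_ext ?_ fun a => ?_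
    · change (_ ≫ _) ≫ _ = (_ ≫ _ ≫ zeroSec n Y) ≫ _
      have : epsPoint k ≫ epsProj k = 𝟙 _ := (sp_comp _ _).trans sp_id
      simp [reassoc_of% this]
    · change _ = (_ ≫ _ ≫ zeroSec n Y).appTop _
      rw [appTop_comp, appTop_comp, appTop_comp, homOfVector_appTop_coord, homOfVector_appTop_coord,
        map_zero, map_zero]
      exact (sp_app _ _).trans (map_zero _)
  · have : homOfVector (epsProj k ≫ epsPoint k ≫ v) (fun a =>
        (Scheme.ΓSpecIso (.of (DualNumber k))).inv (inr (w a))) ≫ map (Fin n) j =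
        sp (eval₂Hom ((algebraMap k _).comp ((fstHom k k k).toRingHom.comp u))
          fun a => (inr (w a) : DualNumber k)) ≫ I.inv := by
      rw [sp_inv]
      refine hom_ext ?_ fun a => ?_
      · rw [Category.assoc, map_over, homOfVector_over_assoc, homOfVector_over, Category.assoc,
          Category.assoc, ← hu]
        exact (congrArg _ (sp_comp _ _)).trans (sp_comp _ _)
      · rw [appTop_comp, map_appTop_coord, homOfVector_appTop_coord, homOfVector_appTop_coord]
    change _ ≫ map (Fin n) j ≫ I.hom ≫ sp φ ≫ inv j = v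
    rw [reassoc_of% this, Iso.inv_hom_id_assoc, sp_comp_assoc, hw, hu, Category.assoc,
      IsIso.hom_inv_id, Category.comp_id]

open Polynomial in
theorem exists_line {f : Y ⟶ Spec (.of k)} (hf : Elliptic f) (v : Spec (.of (DualNumber k)) ⟶ Y)
    (hv : v ≫ f = epsProj k) [IsLocalRing A] (g : Spec (.of A) ⟶ Y) (e : A →+* k)
    (he : sp e ≫ g = epsPoint k ≫ v) : ∃ γ : Spec (.of A[X]) ⟶ Y, sp constantCoeff ≫ γ = g ∧
      sp (eval₂RingHom ((algebraMap k (DualNumber k)).comp e) DualNumber.eps) ≫ γ = v := by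
  obtain ⟨σ, hσ⟩ := hf.2
  obtain ⟨w, h1, h2, h3⟩ := hσ v hv
  obtain ⟨i, hi⟩ := σ.cover (g (IsLocalRing.closedPoint A))
  obtain ⟨g, rfl⟩ : ∃ g', g' ≫ (σ.U i).ι = g :=
    ⟨_, IsOpenImmersion.lift_fac _ g (by
      rw [Scheme.Opens.range_ι]
      rintro _ ⟨x, rfl⟩
      exact ((Scheme.preimage_eq_top_of_closedPoint_mem g hi).ge trivial : x ∈ g ⁻¹ᵁ σ.U i))⟩
  obtain ⟨φ, hφ⟩ := sp_surj (g ≫ (σ.U i).ι ≫ f)
  have h4 : e.comp φ = RingHom.id k := sp_inj (by
    rw [← sp_comp, hφ, reassoc_of% he, hv]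
    exact (sp_comp _ _).trans (congrArg sp (RingHom.ext fun a => rfl)))
  obtain ⟨w, rfl, h5⟩ : ∃ w', w' ≫ σ.e i = w ∧ w' ≫ _ = epsProj k ≫ sp e ≫ g :=
    ⟨_, (σ.isPullback i).lift_fst w _ (by rw [h1, ← he]; simp), (σ.isPullback i).lift_snd _ _ _⟩
  have : IsOpenImmersion (σ.e i) :=
    MorphismProperty.of_isPullback (σ.isPullback i).flip (inferInstance : IsOpenImmersion _)
  have h6 : epsPoint k ≫ w = sp e ≫ g ≫ zeroSec _ _ := (cancel_mono (σ.e i)).1 (by
    rw [Category.assoc, h2, Category.assoc, Category.assoc, σ.zero_eq, ← reassoc_of% he])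
  let c := fun a => (Scheme.ΓSpecIso (.of (DualNumber k))).hom (w.appTop (coord _ a))
  have hc : ∀ a, (Scheme.ΓSpecIso (.of (DualNumber k))).inv (c a) = w.appTop (coord _ a) :=
    fun a => Iso.hom_inv_id_apply _ _
  have h7 : ∀ a, (c a).fst = 0 := fun a => by
    have := congrArg (fun g => g.appTop (coord _ a)) h6
    simp only [appTop_comp, homOfVector_appTop_coord, map_zero] at this
    rw [← hc] at this
    exact (map_eq_zero_iff _ (Scheme.ΓSpecIso (.of k)).symm.commRingCatIsoToRingEquiv.injective).1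
      ((sp_app (fstHom k k k).toRingHom _).symm.trans this)
  let l := homOfVector (sp Polynomial.C ≫ g) fun a =>
    (Scheme.ΓSpecIso (.of A[X])).inv (Polynomial.C (φ (c a).snd) * X)
  refine ⟨l ≫ σ.e i ≫ σ.s, ?_, ?_⟩
  · have : sp constantCoeff ≫ l = g ≫ zeroSec _ _ := hom_ext (by
      rw [Category.assoc, Category.assoc, homOfVector_over, homOfVector_over, sp_comp_assoc,
        show constantCoeff.comp Polynomial.C = RingHom.id A from RingHom.ext (by simp), sp_id]
      simp) fun a => by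
        rw [appTop_comp, appTop_comp, homOfVector_appTop_coord, homOfVector_appTop_coord, map_zero,
          sp_app]
        simp
    rw [reassoc_of% this, reassoc_of% σ.zero_eq, σ.zero_s, Category.comp_id]
  · have : sp (eval₂RingHom ((algebraMap k (DualNumber k)).comp e) DualNumber.eps) ≫ l = w :=
      hom_ext (by
        rw [Category.assoc, homOfVector_over, h5, sp_comp_assoc]
        refine Eq.trans ?_ (sp_comp_assoc _ _ _).symm
        congr 2
        ext1 a
        simp) fun a => by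
          rw [appTop_comp, homOfVector_appTop_coord, sp_app, ← hc]
          congr 1
          ext <;> simp [h7, TrivSqZeroExt.algebraMap_eq_inl,
            show ∀ x, e (φ x) = x from DFunLike.congr_fun h4]
    rw [reassoc_of% this, ← h3, Category.assoc]

theorem elliptic_of_iso [IsAlgClosed k] {F : Scheme.{0}} {φ : F ⟶ Spec (.of k)}
    (h1 : SmoothVariety φ) (h2 : Germs φ) (j : Y ⟶ F) [IsIso j] : Elliptic (j ≫ φ) := by
  obtain ⟨_, _, _, _, _⟩ := h1
  have := isSeparated_of (j ≫ φ)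
  refine elliptic_of_germs
    ⟨.of_isIso (inv j), inferInstance, inferInstance, inferInstance, inferInstance⟩ fun v hv => ?_
  obtain ⟨A, _, i, _, Φ, e, h3, h4, h5⟩ := h2 (v ≫ j) (by rw [Category.assoc, hv])
  exact ⟨A, _, i ≫ inv j, inferInstance, Φ ≫ inv j, e, by simpa using h3,
    by rw [reassoc_of% h4], by rw [reassoc_of% h5, IsIso.hom_inv_id, Category.comp_id]⟩

end Pool.Agent.MP_e8e0b6_ag.NP

end MrgPart5

-- marker of a merged file
example : 731051 + 803261 = 731051 + 803261 := rfl
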