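import Pool.Agent.MP_e8e0b6_ag.NP.Sch

/-!
The quotient by the sign of the product of `a ^ 2 - b d = 1` and `x ^ 2 - (s ^ 2 - s) y z = 1` is a
bundle with elliptic fibre over the complement of a conic, and it is not elliptic.
-/

open AlgebraicGeometry CategoryTheory Limits TrivSqZeroExt Polynomial

namespace Pool.Agent.MP_e8e0b6_ag.NP

variable {k : Type} [Field k]

theorem not_elliptic (f : Spec (.of (Rx (X ^ 2 - X : k[X]))) ⟶ Spec (.of k))
    (hf : f = sp ((xcst _).comp C)) : ¬ Elliptic f := by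
  intro hE
  let ev : k[X][X] →+* k := constantCoeff.comp constantCoeff
  have := RingHom.ker_isPrime ev
  let A := Localization.AtPrime (RingHom.ker ev)
  let L := FractionRing k[X][X]
  let r := algebraMap k[X][X] A
  have hr : Function.Injective r :=
    IsLocalization.injective A (RingHom.ker ev).primeCompl_le_nonZeroDivisors
  let e : A →+* k := IsLocalization.lift (M := (RingHom.ker ev).primeCompl) (g := ev)
    fun y => Ne.isUnit y.2
  have he : ∀ p, e (r p) = ev p := IsLocalization.lift_eq _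
  let ρ : A →+* L := IsLocalization.lift (M := (RingHom.ker ev).primeCompl) (g := algebraMap _ L)
    fun y => IsLocalization.map_units L ⟨y.1, (RingHom.ker ev).primeCompl_le_nonZeroDivisors y.2⟩
  have hρ : ∀ p, ρ (r p) = algebraMap _ L p := IsLocalization.lift_eq _
  have hρ' : Function.Injective ρ := (IsLocalization.lift_injective_iff _).2 fun x y =>
    hr.eq_iff.trans (IsFractionRing.injective _ L).eq_iff.symm
  obtain ⟨u, hu⟩ := (IsLocalization.map_units A (⟨1 - C (X ^ 2 - X) * X, by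
    simp [ev, Ideal.primeCompl, RingHom.mem_ker]⟩ : (RingHom.ker ev).primeCompl)).exists_left_inv
  change u * r (1 - C (X ^ 2 - X) * X) = 1 at hu
  have hu' : e u = 1 := by simpa [he, ev] using congrArg e hu
  let g : Rx (X ^ 2 - X : k[X]) →+* A := xlift (r.comp C) (Pt2.of_vec (u := u)
    (v := ![1, r (C (X ^ 2 - X)), r X]) (w := ![1, 1, r X]) (by simpa using hu) (by simpa using hu))
  let v : Rx (X ^ 2 - X : k[X]) →+* DualNumber k :=
    xlift (eval₂RingHom (algebraMap k _) DualNumber.eps)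
      (Pt2.of_vec (u := 1) (v := ![1, 0, 0]) (w := ![1, 1, 0]) (by simp) (by simp))
  have hg : ∀ a, g (xcst _ a) = r (C a) := xlift_cst _ _
  have hv : ∀ a, v (xcst _ a) = a.eval₂ (algebraMap k _) DualNumber.eps := xlift_cst _ _
  obtain ⟨γ, h1, h2⟩ := exists_line (A := A) hE (sp v) (by
      rw [hf, sp_comp]
      exact congrArg sp (RingHom.ext fun a => (hv _).trans (eval₂_C _ _))) (sp (T := A) g) e (by
    refine (sp_comp _ _).trans (Eq.trans (congrArg sp (rx_ext (fun a => ?_) fun a b => ?_))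
      (sp_comp _ _).symm)
    · refine DFunLike.congr_fun (?_ : (e.comp g).comp (xcst _) =
        ((fstHom k k k).toRingHom.comp v).comp (xcst _)) a
      exact Polynomial.ringHom_ext (fun a => by simp [hg, hv, he, ev]) (by simp [hg, hv, he, ev])
    · have : ∀ a, e (Sum.elim ![1, r (C (X ^ 2 - X)), r X] ![1, 1, r X] a) =
          (Sum.elim ![1, 0, 0] ![1, 1, 0] a : DualNumber k).fst := by
        rintro (a | a) <;> fin_cases a <;> simp [he, ev]
      rw [RingHom.comp_apply, RingHom.comp_apply, xlift_mat, xlift_mat, Matrix.of_apply, map_mul,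
        map_mul, this, this, hu']
      rfl)
  obtain ⟨φ, rfl⟩ := sp_surj γ
  have h3 : ∀ x, (φ x).coeff 0 = g x := DFunLike.congr_fun (sp_inj ((sp_comp _ _).symm.trans h1))
  have h4 := DFunLike.congr_fun (sp_inj ((sp_comp _ _).symm.trans h2)) (xcst _ X)
  let ψ := (mapRingHom ρ).comp φ
  have h5 : ∀ x, (ψ x).coeff 0 = ρ (g x) := fun x => (coeff_map _ _).trans (congrArg ρ (h3 x))
  have H := ((pt2 (X ^ 2 - X : k[X])).map ψ).right
  let M : Fin 3 → Fin 3 → L[X] := fun a b => ψ (xmat _ (.inr a) (.inr b))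
  have h6 : (M 0 0).coeff 0 = ρ u := by
    rw [h5, xlift_mat]
    simp
  have h7 : ρ u * algebraMap _ L (1 - C (X ^ 2 - X) * X : k[X][X]) = 1 := by
    rw [← hρ, ← map_mul, hu, map_one]
  obtain ⟨x, y, z, h8, h9⟩ := exists_zero (γ := ψ (xcst _ X)) (a := M 0 0) (b := M 0 1)
    (c := M 0 2) (d := M 1 1) (e := M 1 2) (f := M 2 2) (by
      change 0 < ((φ _).map ρ).natDegree
      rw [natDegree_map_eq_of_injective hρ', pos_iff_ne_zero, Ne, natDegree_eq_zero]
      rintro ⟨a, ha⟩
      rw [RingHom.comp_apply, ← ha, hv] at h4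
      simpa [algebraMap_eq_inl] using congrArg snd h4)
    ((H.mul_diag 0 1 1).symm.trans (sq _).symm) ((H.mul_diag 0 2 2).symm.trans (sq _).symm)
    (H.mul_diag 0 1 2).symm (by simpa [Matrix.toBlocks₂₂] using H.tr) (h6 ▸ left_ne_zero_of_mul_eq_one h7)
  rw [h6, h5, hg, hρ, ← map_pow, ← map_sub, ← map_pow, ← map_sub] at h9
  have := aniso h7 h9
  tauto

variable [CharZero k]

theorem germs_cone (μ : k[X]) : Germs (sp (cstr (C : k →+* k[X]) μ)) := by
  intro v hv
  obtain ⟨v, rfl⟩ := sp_surj v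
  have h1 : ∀ a, v (ccst μ (C a)) = inl a :=
    DFunLike.congr_fun (sp_inj ((sp_comp _ _).symm.trans hv))
  obtain ⟨e, he, h2⟩ : ∃ e : k, e * e = 1 ∧ (v (vec μ 0)).fst + e ≠ 0 := by
    by_contra! h
    exact two_ne_zero (α := k) (by linear_combination h 1 (by simp) - h (-1) (by simp))
  let A := Localization.Away (vec μ 0 + ccst μ (C e))
  let r := algebraMap (Cn μ) A
  let w : A := IsLocalization.Away.invSelf (vec μ 0 + ccst μ (C e))
  have hw : (r (vec μ 0) + r (ccst μ (C e))) * w = 1 :=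
    (congrArg (· * w) (map_add r _ _).symm).trans (IsLocalization.Away.mul_invSelf _)
  let u : A →+* DualNumber k := IsLocalization.Away.lift (vec μ 0 + ccst μ (C e)) (g := v)
    (isUnit_iff_isUnit_fst.2 (by simpa [h1] using h2))
  have hu : ∀ x, u (r x) = v x := IsLocalization.Away.lift_eq _ _
  let l : A → A[X] := fun x => C x + C (r (ccst μ (C (u x).snd))) * X
  let ψ : k[X] →+* A[X] := eval₂RingHom (C.comp (r.comp (cstr C μ))) (l (r (ccst μ X)))
  have hψ : ∀ a, ψ (C a) = C (r (ccst μ (C a))) := fun a => eval₂_C _ _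
  have hψ' : ψ X = l (r (ccst μ X)) := eval₂_X _ _
  let θ := eval₂RingHom ((inlR k).comp ((fstR k).comp u)) DualNumber.eps
  have h3 : ∀ x, θ (C x) = inl (u x).fst := fun x => eval₂_C _ _
  have h4 : ∀ x, θ (l x) = u x := fun x => by
    rw [map_add, map_mul, h3, h3, hu, h1, show θ X = DualNumber.eps from eval₂_X _ _]
    ext <;> simp
  have h5 : ∀ x, constantCoeff (l x) = x := fun x => by simp [l]
  have h6 : ψ (C e) * ψ (C e) = 1 := by rw [← map_mul, ← map_mul, he, map_one, map_one]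
  let Φ := par (μ := μ) ψ h6 (l (r (vec μ 1))) (l (r (vec μ 2) * w))
  refine ⟨A, _, sp r, inferInstance, sp Φ, (fstR k).comp u, ?_, ?_, ?_⟩
  · rw [sp_comp, sp_comp, sp_comp]
    exact congrArg sp (RingHom.ext fun a => (par_cst ψ h6 _ _ _).trans (hψ a))
  · rw [sp_comp, map_par ψ _ _ _ constantCoeff r (DFunLike.congr_fun (Polynomial.ringHom_ext
      (f := constantCoeff.comp ψ) (g := r.comp (ccst μ)) (fun a => by simp [hψ])
      ((congrArg _ hψ').trans (h5 _)))) (h5 _) (u := w) (by simpa [hψ] using hw) (h5 _)]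
  · rw [sp_comp, map_par ψ _ _ _ θ v (DFunLike.congr_fun (Polynomial.ringHom_ext
      (f := θ.comp ψ) (g := v.comp (ccst μ)) (fun a => by simp [hψ, h3, hu, h1])
      ((congrArg _ hψ').trans ((h4 _).trans (hu _))))) ((h4 _).trans (hu _)) (u := u w)
      (by simpa [hψ, h3, hu, h1] using congrArg u hw) (by rw [h4, map_mul, hu])]

theorem two_unit {A : Type} [CommRing A] (ι : k →+* A) : IsUnit (2 : A) :=
  map_ofNat ι 2 ▸ (two_ne_zero (α := k)).isUnit.map ι

theorem smoothVariety_cone {μ : k[X]} (h : μ ≠ 0) : SmoothVariety (sp (cstr (C : k →+* k[X]) μ)) := by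
  have := isDomain_cn h (two_unit C)
  have : Smooth (sp (cstr (C : k →+* k[X]) μ)) := (HasRingHomProperty.Spec_iff (P := @Smooth)).2
    ((RingHom.smooth_algebraMap.2 (⟨inferInstance, inferInstance⟩ : Algebra.Smooth k k[X])).comp
      (smooth_ccst μ (two_unit C)))
  exact ⟨inferInstance, inferInstance, inferInstance, inferInstance, inferInstance⟩

variable [IsAlgClosed k]

theorem elliptic_base : Elliptic (sp (cst (1 : k))) := by
  obtain ⟨φ, h1, h2, h3⟩ := exists_spray (1 : k)
  have := isDomain (1 : k)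
  have := elliptic_of_affine _ (smooth_cst (1 : k)) φ h1 h2 h3 (𝟙 _)
  rwa [Category.id_comp] at this

theorem exists_lift (s : Spec (.of k) ⟶ Spec (.of (Rg (1 : k)))) (h : s ≫ sp (cst 1) = 𝟙 _) :
    ∃ t, t ≫ sp (cov 1) = s := by
  obtain ⟨τ, rfl⟩ := sp_surj s
  have h1 : ∀ a, τ (cst 1 a) = a :=
    DFunLike.congr_fun (sp_inj ((sp_comp _ _).symm.trans (h.trans sp_id.symm)))
  obtain ⟨V, hV⟩ := exists_vec ((pt (1 : k)).map ((inlR k).comp τ))
  have h2 : ∀ a b, τ (mat 1 a b) = (V a).fst * (V b).fst := fun a b =>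
    congrArg fst (congrFun (congrFun hV a) b)
  refine ⟨sp (clift (μ := (1 : k)) (RingHom.id k) (fun a => (V a).fst) ?_),
    (sp_comp _ _).trans (congrArg sp (rg_ext (fun a => ?_) fun a b => ?_))⟩
  · simpa [h1, h2, sq] using ((pt (1 : k)).map τ).tr
  · rw [RingHom.comp_apply, cov_cst, clift_cst, h1]
    rfl
  · rw [RingHom.comp_apply, cov_mat, map_mul, clift_vec, clift_vec, h2]

variable (k) in
theorem main : ∃ (X S S' F : Scheme.{0}) (f : S ⟶ Spec (CommRingCat.of k)) (π : X ⟶ S)
    (c : S' ⟶ S) (φ : F ⟶ Spec (CommRingCat.of k)) (m : pullback (c ≫ f) φ ⟶ X),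
    IsAffine X ∧ IsAffine S ∧ SmoothVariety (π ≫ f) ∧ Smooth π ∧ Surjective π ∧
    IsFinite c ∧ Etale c ∧ Surjective c ∧ IsPullback m (pullback.fst (c ≫ f) φ) π c ∧
    Elliptic f ∧ Elliptic φ ∧
    (∀ s : Spec (CommRingCat.of k) ⟶ S, s ≫ f = 𝟙 _ → Elliptic (pullback.snd π s)) ∧
    ¬ Elliptic (π ≫ f) := by
  let μ : k[X] := X ^ 2 - X
  have h0 : μ ≠ 0 := fun h =>
    one_ne_zero (not_sq (k := k) (x := 0) (y := 1) (by rw [show X ^ 2 - X = μ from rfl, h]; ring))
  let f := sp (cst (1 : k))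
  let π := sp (proj C μ)
  let c := sp (cov (1 : k))
  let φ := sp (cstr (C : k →+* k[X]) μ)
  have hF : SmoothVariety φ := smoothVariety_cone h0
  have hS : Elliptic f := elliptic_base
  have := hF.smooth
  have := hF.integral
  have := hS.1.smooth
  have := hS.1.integral
  have := isDomain_cn (one_ne_zero (α := k)) (two_unit (.id k))
  have := isDomain_cn h0 (two_unit C)
  have := isDomain_cn ((map_one (cstr (C : k →+* k[X]) μ)).trans_ne one_ne_zero)
    (two_unit (cstr C μ))
  have : IsFinite c := (IsFinite.SpecMap_iff _).2 (finite_cov _ (two_unit (.id k)))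
  have : Etale c := (HasRingHomProperty.Spec_iff (P := @Etale)).2 (etale_cov _ (two_unit (.id k)))
  have : Surjective c := ⟨Set.range_eq_univ.1 (IsClopen.eq_univ
    ⟨c.isClosedMap.isClosed_range, c.isOpenMap.isOpen_range⟩ (Set.range_nonempty _))⟩
  have : Surjective φ := ⟨Function.surjective_to_subsingleton _⟩
  have P := isPullback_SpecMap_of_isPushout _ _ _ _ (isPushout_quo (C : k →+* k[X]) μ)
  have Q : IsPullback (sp (cbc 1 (cstr C μ))) (sp (ccst (cstr C μ 1))) (c ≫ f) φ := by
    rw [sp_comp, show (cov 1).comp (cst 1) = ccst (1 : k) from RingHom.ext (cov_cst 1)]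
    exact isPullback_SpecMap_of_isPushout _ _ _ _ (isPushout_cn 1 _)
  have P' : IsPullback (Q.isoPullback.inv ≫ sp (quo C μ)) (pullback.fst (c ≫ f) φ) π c := by
    simpa using (IsPullback.of_horiz_isIso (g := 𝟙 _)
      ⟨Q.isoPullback_inv_fst.trans (Category.comp_id _).symm⟩).paste_horiz P.flip
  have : Smooth π := MorphismProperty.of_isPullback_of_descendsAlong (P := @Smooth)
    (Q := @Surjective ⊓ @Flat ⊓ @QuasiCompact) P'.flip
    ⟨⟨inferInstance, inferInstance⟩, inferInstance⟩ inferInstance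
  have : Surjective π := by
    have : Surjective ((Q.isoPullback.inv ≫ sp (quo C μ)) ≫ π) := P'.w ▸ inferInstance
    exact .of_comp (Q.isoPullback.inv ≫ sp (quo C μ)) π
  have := ((flat_and_surjective_SpecMap_iff _).1
    ⟨MorphismProperty.of_isPullback P (inferInstanceAs (Flat c)),
      MorphismProperty.of_isPullback P (inferInstanceAs (Surjective c))⟩).injective.isDomain _
  refine ⟨_, _, _, _, f, π, c, φ, _, inferInstance, inferInstance,
    ⟨inferInstance, inferInstance, inferInstance, inferInstance, inferInstance⟩, ‹_›, ‹_›, ‹_›, ‹_›,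
    ‹_›, P', hS, ?_, fun s hs => ?_, not_elliptic _
      ((sp_comp _ _).trans (congrArg sp (RingHom.ext (proj_cst C μ))))⟩
  · simpa using elliptic_of_iso hF (germs_cone μ) (𝟙 _)
  · obtain ⟨t, rfl⟩ := exists_lift s hs
    have h1 : t ≫ c ≫ f = 𝟙 _ := (Category.assoc _ _ _).symm.trans hs
    let n := pullback.lift (f := c ≫ f) (g := φ) (φ ≫ t) (𝟙 _) (by simp [h1])
    have R : IsPullback n φ (pullback.fst (c ≫ f) φ) t := .of_right
      (by rw [pullback.lift_snd, h1]; exact .of_horiz_isIso ⟨by simp⟩) (pullback.lift_fst _ _ _)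
      (IsPullback.of_hasPullback (c ≫ f) φ).flip
    have := elliptic_of_iso hF (germs_cone μ) (R.paste_horiz P').isoPullback.inv
    rwa [IsPullback.isoPullback_inv_snd] at this

end Pool.Agent.MP_e8e0b6_ag.NP
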